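import Mathlib
import Pool.Agent.Run7.h835.RR.J

set_option autoImplicit false

/-!
# MP_524521_nt: forms in `ζ(2), ζ(3), ζ(4), ζ(5), ζ(2) ζ(3)` in random mixed radices

Question Q1 asks whether `ζ(2) ζ(3)` is a rational combination of `ζ(2), ζ(3), ζ(4), ζ(5)`. With `w = π^2 / 30` we have
`ζ(2) = 5 w` and `ζ(4) = 10 w^2`, so that the integral forms in these five numbers are among the numbers
`A(w) + B(w) ζ(3) + C(w) ζ(5)`, `A, B, C ∈ ℤ[X]`. We look at the expansions of these numbers in mixed radices: the place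
values are `1 / (p_0 p_1 ⋯ p_n)`, where `p_k` are independent random primes, `p_k` uniformly distributed on the primes up to
`(k + 2) ^ θ`, `θ > 1`. The tail of the expansion of `y` after the place `n` is the fractional part of `p_0 ⋯ p_(n-1) y`.

There are `0 < a < b < 1` such that, with `E = E(J, N)` the lattice generated (up to integral factors) by the approximate
relations `A(w) + B(w) ζ(3) + C(w) ζ(5)` of degree `≤ J`, with coefficients `≤ exp (N ^ a)` and of absolute value
`< exp (- N ^ b)`: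

(1) Almost surely, for all `J, m, L, H, ε`, for all large `N`: all `m`-tuples of vectors `(A, B, C)` of degree `≤ J` and height
`≤ H`, which are linearly independent modulo `E` and the constants, have values which are jointly equidistributed up to the
place `N`, with words of length `L`, up to `ε`.

(2) For all `J` and all large `N`: the `ℤ[X]`-module generated by `E` has rank at most two and contains no vector
`(A, 0, 0) ≠ 0`; the vectors of `E` which are integral forms in `1, ζ(2), ζ(3), ζ(4), ζ(5), ζ(2) ζ(3)` span a space of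
dimension at most two, those which are forms in `1, ζ(2), ζ(3), ζ(4), ζ(2) ζ(3)` a space of dimension at most one, and none,
except zero, is a form in `1, ζ(2), ζ(3)`. All exact relations are in `E` for all large `N`; so the equality of Q1
would give a vector which is in `E` for all large `N`.

(3) Consequently, almost surely, for all `L, H, ε`, for all large `N`, the integral forms of height `≤ H` in
`ζ(2), ζ(3), ζ(4), ζ(5), ζ(2) ζ(3)` whose value is not equidistributed up to `N` lie in a plane; those without `ζ(5)` lie on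
a line; and none, except zero, is a form in `ζ(2), ζ(3)` or in `ζ(2), ζ(4)`. And `ζ(2), ζ(3), ζ(4)` are jointly
equidistributed up to `N`, or `ζ(2), ζ(3), ζ(2) ζ(3)` and `ζ(2), ζ(4), ζ(2) ζ(3)` both are.

Proof. The second moment method for random products of primes (see MP_5b6025_nt.RandomMixedRadix and
MP_58e087_nt.OneExceptionalLine), applied to the numbers `w ^ i, w ^ i ζ(3), w ^ i ζ(5)`, gives (1). The facts in (2) come from
the transcendence measure of `π` and the measure of linear independence of `1, ζ(2), ζ(3)` by elimination. Nothing is used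
about `ζ(5)`.
-/

namespace Pool.Agent.Results.MP_524521_nt.FormsInRandomRadices

open Filter Topology MeasureTheory ProbabilityTheory Polynomial

/-- the primes up to `(k + 2) ^ θ` -/
noncomputable def primes (θ : ℝ) (k : ℕ) : Finset ℕ := Nat.primesLE ⌊((k : ℝ) + 2) ^ θ⌋₊

/-- `p 0, p 1, …` are independent random primes, `p k` is uniformly distributed on the primes up to `(k + 2) ^ θ` -/
structure RandomPrimes (θ : ℝ) {Ω : Type} [MeasurableSpace Ω] (P : Measure Ω) (p : ℕ → Ω → ℕ) : Prop where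
  mem : ∀ k ω, p k ω ∈ primes θ k
  indep : iIndepFun p P
  uniform : ∀ k, ∀ q ∈ primes θ k, P.real {ω | p k ω = q} = 1 / ((primes θ k).card : ℝ)

/-- the product `p 0 ⋯ p (n - 1)` -/
def prod (p : ℕ → ℕ) (n : ℕ) : ℕ := ∏ k ∈ Finset.range n, p k

/-- the numbers `x i` are jointly equidistributed in the mixed radix `p` up to the place `N`, with words of length `L`
and up to the error `ε`: for all boxes the number of the places `n < N`, such that the fractional parts of
`p 0 ⋯ p (n + l - 1) * x i`, `l < L`, are in the box, is equal to the volume of the box times `N` up to `ε N` -/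
def Equi (p : ℕ → ℕ) {m : ℕ} (x : Fin m → ℝ) (L N : ℕ) (ε : ℝ) : Prop :=
  ∀ u v : Fin L → Fin m → ℝ, (∀ l i, 0 ≤ u l i ∧ u l i ≤ v l i ∧ v l i ≤ 1) →
    |(((Finset.range N).filter fun n => ∀ l i, u l i ≤ Int.fract ((prod p (n + (l : ℕ)) : ℝ) * x i) ∧
      Int.fract ((prod p (n + (l : ℕ)) : ℝ) * x i) < v l i).card : ℝ) - (∏ l, ∏ i, (v l i - u l i)) * N| ≤ ε * N

/-- the number `ζ(n)` -/
noncomputable def zeta (n : ℕ) : ℝ := ∑' k : ℕ, 1 / ((k : ℝ) + 1) ^ n

/-- the number `w = π^2 / 30` -/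
noncomputable def w : ℝ := Real.pi ^ 2 / 30

/-- the value `A(w) + B(w) ζ(3) + C(w) ζ(5)` of the vector `v = (A, B, C)` of polynomials -/
noncomputable def value (v : Fin 3 → ℤ[X]) : ℝ :=
  aeval w (v 0) + aeval w (v 1) * zeta 3 + aeval w (v 2) * zeta 5

/-- the approximate relations: vectors of polynomials of degree `≤ J`, with coefficients `≤ exp (N ^ a)` and a value
`< exp (- N ^ b)` -/
def Near (J : ℕ) (a b : ℝ) (N : ℕ) : Set (Fin 3 → ℤ[X]) :=
  {v | (∀ j, (v j).natDegree ≤ J) ∧ (∀ j i, |((v j).coeff i : ℝ)| ≤ Real.exp ((N : ℝ) ^ a)) ∧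
    |value v| < Real.exp (-(N : ℝ) ^ b)}

/-- the exceptional vectors at the place `N`: a nonzero multiple is an integral combination of approximate relations -/
def Exceptional (J : ℕ) (a b : ℝ) (N : ℕ) : Set (Fin 3 → ℤ[X]) :=
  {v | ∃ D : ℤ, D ≠ 0 ∧ D • v ∈ Submodule.span ℤ (Near J a b N)}

/-- the vectors `f j` are linearly independent modulo `E` and the constants -/
def IndependentMod {m : ℕ} (E : Set (Fin 3 → ℤ[X])) (f : Fin m → Fin 3 → ℤ[X]) : Prop :=
  ∀ (c : Fin m → ℤ) (κ : ℤ), c ≠ 0 → (∑ j, C (c j) • f j) - (Pi.single 0 (C κ) : Fin 3 → ℤ[X]) ∉ E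

/-- the number `f_0 ζ(2) + f_1 ζ(3) + f_2 ζ(4) + f_3 ζ(5) + f_4 ζ(2) ζ(3)` -/
noncomputable def lin (f : Fin 5 → ℤ) : ℝ :=
  f 0 * zeta 2 + f 1 * zeta 3 + f 2 * zeta 4 + f 3 * zeta 5 + f 4 * (zeta 2 * zeta 3)

/-- the integral forms of height `≤ H` in `ζ(2), ζ(3), ζ(4), ζ(5), ζ(2) ζ(3)` whose value is not equidistributed up to the
place `N` -/
def Bad (p : ℕ → ℕ) (L H N : ℕ) (ε : ℝ) : Set (Fin 5 → ℤ) :=
  {f | (∀ i, |f i| ≤ H) ∧ ¬ Equi p (fun _ : Fin 1 => lin f) L N ε}

/-- the vectors `f i` are linearly dependent -/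
def Dependent {n : ℕ} {M : Type} [AddCommGroup M] (f : Fin n → M) : Prop :=
  ∃ c : Fin n → ℤ, c ≠ 0 ∧ ∑ i, c i • f i = 0

/-- (1) the values of vectors of polynomials of bounded degree and height, which are linearly independent modulo the
exceptional ones and the constants, are jointly equidistributed -/
def Outside (a b : ℝ) (p : ℕ → ℕ) : Prop :=
  ∀ (J m L H : ℕ) (ε : ℝ), 0 < ε → ∀ᶠ N : ℕ in atTop, ∀ f : Fin m → Fin 3 → ℤ[X],
    (∀ j i, (f j i).natDegree ≤ J) → (∀ j i l, |(f j i).coeff l| ≤ (H : ℤ)) →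
      IndependentMod (Exceptional J a b N) f → Equi p (fun j => value (f j)) L N ε

/-- the elements of `E` which are integral forms in `1, w, w ^ 2, ζ(3), w ζ(3), ζ(5)` -/
def Low (E : Set (Fin 3 → ℤ[X])) : Set (Fin 3 → ℤ[X]) :=
  {v | v ∈ E ∧ (v 0).natDegree ≤ 2 ∧ (v 1).natDegree ≤ 1 ∧ (v 2).natDegree = 0}

/-- (2) the `ℤ[X]`-module generated by `E` contains no vector `(A, 0, 0) ≠ 0` and has rank at most two; the elements which
are forms in `1, w, w ^ 2, ζ(3), w ζ(3), ζ(5)` span a space of dimension at most two, those without `ζ(5)` a space of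
dimension at most one, and none except zero is a form in `1, w, ζ(3)` -/
def FewExceptional (E : Set (Fin 3 → ℤ[X])) : Prop :=
  (∀ v ∈ Submodule.span ℤ[X] E, v 1 = 0 → v 2 = 0 → v = 0) ∧
  (∀ M : Matrix (Fin 3) (Fin 3) ℤ[X], (∀ i, M i ∈ Submodule.span ℤ[X] E) → M.det = 0) ∧
  (∀ v : Fin 3 → Fin 3 → ℤ[X], (∀ i, v i ∈ Low E) → Dependent v) ∧
  (∀ v : Fin 2 → Fin 3 → ℤ[X], (∀ i, v i ∈ Low E ∧ v i 2 = 0) → Dependent v) ∧
  ∀ v ∈ E, (v 0).natDegree ≤ 1 → (v 1).natDegree = 0 → v 2 = 0 → v = 0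

/-- (3) the bad forms lie in a plane, those without `ζ(5)` on a line, and none except zero is a form in `ζ(2), ζ(3)` or
in `ζ(2), ζ(4)` -/
def FewBad (p : ℕ → ℕ) (L H N : ℕ) (ε : ℝ) : Prop :=
  (∀ f : Fin 3 → Fin 5 → ℤ, (∀ i, f i ∈ Bad p L H N ε) → Dependent f) ∧
  (∀ f : Fin 2 → Fin 5 → ℤ, (∀ i, f i ∈ Bad p L H N ε ∧ f i 3 = 0) → Dependent f) ∧
  ∀ f ∈ Bad p L H N ε, f 3 = 0 → f 4 = 0 → f 1 = 0 ∨ f 2 = 0 → f = 0

theorem zeta_two : zeta 2 = 5 * w := by
  have h : zeta 2 = Real.pi ^ 2 / 6 := Pool.Agent.V11210.ZZ.zeta_two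
  rw [h, w]
  ring

theorem zeta_four : zeta 4 = 10 * w ^ 2 := by
  have h : zeta 4 = 2 / 5 * zeta 2 ^ 2 := Pool.Agent.V11210.ZZ.zeta_four
  rw [h, zeta_two]
  ring

open Run7.h835.RR in
theorem value_eq : value = ev w ![zeta 3, zeta 5] := by
  funext v
  rw [ev, Fin.sum_univ_two, ← add_assoc]
  rfl

open Run7.h835.RR in
theorem exceptional_eq (J : ℕ) (a b : ℝ) (N : ℕ) : Exceptional J a b N = El J w ![zeta 3, zeta 5] a b N := by
  unfold Exceptional Near
  rw [value_eq]
  rfl

open Run7.h835.RR in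
theorem value_lin (f : Fin 5 → ℤ) :
    value ![C (5 * f 0) * X + C (10 * f 2) * X ^ 2, C (f 1) + C (5 * f 4) * X, C (f 3)] = lin f := by
  unfold value lin
  show aeval w (C (5 * f 0) * X + C (10 * f 2) * X ^ 2 : ℤ[X]) + aeval w (C (f 1) + C (5 * f 4) * X : ℤ[X]) * zeta 3 +
    aeval w (C (f 3) : ℤ[X]) * zeta 5 = _
  rw [zeta_two, zeta_four]
  simp only [map_add, map_mul, map_pow, aeval_X, aeval_C]
  simp only [algebraMap_int_eq, eq_intCast]
  push_cast
  ring

open Run7.h835.RR in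
theorem lin_eq (f : Fin 5 → ℤ) : lin f = ev w ![zeta 3, zeta 5] (frm f) := by
  rw [← value_lin, value_eq]
  rfl

open Run7.h835.RR in
theorem tri_eq (i j k : Fin 5) : (fun l => ev w ![zeta 3, zeta 5] (frm (tri i j k l))) =
    ![lin (Pi.single i 1), lin (Pi.single j 1), lin (Pi.single k 1)] := by
  funext l
  rw [← lin_eq]
  fin_cases l <;> rfl

theorem lin_unit : lin (Pi.single 0 1) = zeta 2 ∧ lin (Pi.single 1 1) = zeta 3 ∧ lin (Pi.single 2 1) = zeta 4 ∧
    lin (Pi.single 4 1) = zeta 2 * zeta 3 := by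
  refine ⟨?_, ?_, ?_, ?_⟩ <;> simp [lin, Pi.single_apply]

open Run7.h683.MR Run7.h835.RR in
/-- Forms in `ζ(2), ζ(3), ζ(4), ζ(5), ζ(2) ζ(3)` in almost all mixed radices of random primes. -/
theorem result (θ : ℝ) (hθ : 1 < θ) :
    ∃ a b : ℝ, 0 < a ∧ a < b ∧ b < 1 ∧
      -- the integral forms in the five numbers are among the values
      (∀ f : Fin 5 → ℤ,
        value ![C (5 * f 0) * X + C (10 * f 2) * X ^ 2, C (f 1) + C (5 * f 4) * X, C (f 3)] = lin f) ∧
      (∀ (Ω : Type) [MeasurableSpace Ω] (P : Measure Ω) [IsProbabilityMeasure P] (p : ℕ → Ω → ℕ),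
        RandomPrimes θ P p → ∀ᵐ ω ∂P,
          -- (1)
          Outside a b (fun k => p k ω) ∧
          -- (3)
          (∀ (L H : ℕ) (ε : ℝ), 0 < ε → ∀ᶠ N : ℕ in atTop, FewBad (fun k => p k ω) L H N ε) ∧
          ∀ (L : ℕ) (ε : ℝ), 0 < ε → ∀ᶠ N : ℕ in atTop,
            Equi (fun k => p k ω) ![zeta 2, zeta 3, zeta 4] L N ε ∨
              (Equi (fun k => p k ω) ![zeta 2, zeta 3, zeta 2 * zeta 3] L N ε ∧
                Equi (fun k => p k ω) ![zeta 2, zeta 4, zeta 2 * zeta 3] L N ε)) ∧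
      -- (2)
      (∀ J : ℕ, ∀ᶠ N : ℕ in atTop, FewExceptional (Exceptional J a b N)) ∧
      -- the exact relations are exceptional
      (∀ (J : ℕ) (v : Fin 3 → ℤ[X]), (∀ j, (v j).natDegree ≤ J) → value v = 0 →
        ∀ᶠ N : ℕ in atTop, v ∈ Exceptional J a b N) ∧
      -- such random primes exist
      ∃ (Ω : Type) (_ : MeasurableSpace Ω) (P : Measure Ω) (_ : IsProbabilityMeasure P) (p : ℕ → Ω → ℕ),
        RandomPrimes θ P p := by
  obtain ⟨a, b, ha, hab, hb, _, h⟩ := Run7.h835.RR.main.{0} (growth θ hθ)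
  have hw : Run7.h683.AB.MT w := mt_w
  have hM : Meas3 w (zeta 3) := meas3_w
  refine ⟨a, b, ha, hab, hb, value_lin, ?_, ?_, ?_, ?_⟩
  · intro Ω _ P _ p hp
    filter_upwards [h Ω P p (uniform_of_indep hp.mem hp.indep hp.uniform) w 2 ![zeta 3, zeta 5]] with ω hω
    refine ⟨?_, ?_, ?_⟩
    · intro J m L H ε hε
      filter_upwards [hω J m L H ε hε] with N g f hfd hfH hf
      rw [exceptional_eq] at hf
      rw [value_eq]
      exact g f hfd hfH hf
    · intro L H ε hε
      filter_upwards [five ha hab hw hM (zeta 5) hω L H ε hε] with N g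
      refine g (Bad (fun k => p k ω) L H N ε) ?_
      rintro f ⟨h1, h2⟩
      refine ⟨h1, fun h3 => h2 ?_⟩
      rw [lin_eq]
      exact h3
    · intro L ε hε
      obtain ⟨u0, u1, u2, u4⟩ := lin_unit
      filter_upwards [triples ha hab hw hM (zeta 5) hω L ε hε] with N g
      rw [tri_eq, tri_eq, tri_eq, u0, u1, u2, u4] at g
      exact g
  · intro J
    filter_upwards [sat_small ha hab hw J ![zeta 3, zeta 5], el_five ha hab hw hM J (zeta 5),
      el_four ha hab hw hM J (zeta 5), el_two ha hab hw hM J (zeta 5)] with N g1 g5 g4 g2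
    rw [exceptional_eq]
    refine ⟨?_, ?_, ?_, ?_, ?_⟩
    · intro v hv h1 h2
      refine g1 v (span_el hv) fun j => ?_
      fin_cases j
      · exact h1
      · exact h2
    · intro M hM
      exact det_eq_zero _ g1 M fun i => span_el (hM i)
    · exact g5
    · intro v hv
      obtain ⟨c, c', hc, hrel⟩ := g4 _ (hv 0).1.1 _ (hv 1).1.1 (hv 0).1.2.1 (hv 0).1.2.2.1 (hv 0).2 (hv 1).1.2.1
        (hv 1).1.2.2.1 (hv 1).2
      refine ⟨![c, -c'], fun h0 => ?_, ?_⟩
      · have e0 : c = 0 := congrFun h0 0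
        have e1 : -c' = 0 := congrFun h0 1
        rcases hc with hc | hc
        · exact hc e0
        · exact hc (neg_eq_zero.1 e1)
      · rw [Fin.sum_univ_two]
        show c • v 0 + (-c') • v 1 = 0
        rw [hrel]
        simp
    · exact g2
  · intro J v hv h0
    rw [value_eq] at h0
    filter_upwards [el_exact (b := b) ha J v hv h0] with N g
    rw [exceptional_eq]
    exact g
  · obtain ⟨Ω, i1, P, i2, p, h5, h6, h7⟩ := exists_uniform (Sk θ) (growth θ hθ).ne
    exact ⟨Ω, i1, P, i2, p, ⟨h5, h6, h7⟩⟩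

end Pool.Agent.Results.MP_524521_nt.FormsInRandomRadices
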