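import Mathlib
import Pool.Agent.Run7.h123.LC.LinG

set_option autoImplicit false

/-!
# `ζ(2)ζ(3)` and the fields of numbers with simple expansions

Let `S` be an infinite set of integers and `K_b` the field generated by the real numbers with simple
expansions (`O(m)` different blocks of length `m`, `m ∈ S`) in bases dependent on `b`.

For all bases `b` outside at most two classes of multiplicatively dependent numbers (more precisely for
all `b` independent of at most two bases) the numbers `ζ(2)ζ(3), ζ(2), ζ(4)` are linearly independent over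
`K_b`, and the solutions `(a, b, c, d)` of `ζ(2)ζ(3) = a ζ(2) + b ζ(3) + c ζ(4) + d ζ(5)` in `K_b` are on
a line, none has `b = d = 0`, at most one has `b = 0` and at most one has `d = 0`.

The proof uses the measure of linear independence of `1, π ^ 2, ζ(3)` of the starting files and the
theorem that numbers with such a measure, `n` of them, are linearly independent over one of any `n`
fields `K_G` for independent groups `G` (`Run7/h123/LC/LinN.lean`; a matroid argument of Rado type for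
linearly disjoint fields of hyperreal numbers, `LinL.lean`).
-/

namespace Pool.Agent.Results.MP_524521_nt.ProductOverSimpleFields

/-- the number of different blocks of length `m` in the sequence `w` -/
noncomputable def blocks {A : Type} (w : ℕ → A) (m : ℕ) : ℕ :=
  (Set.range fun i => fun j : Fin m => w (i + j)).ncard

/-- the digit with index `k + 1` after the point in the base `b` expansion of `x` -/
noncomputable def digit (b : ℕ) (x : ℝ) (k : ℕ) : ℤ := ⌊x * (b : ℝ) ^ (k + 1)⌋ % (b : ℤ)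

/-- the sums of the series `∑ γ(w_0) ⋯ γ(w_{k-1}) c(w_k)`, where the `w_k` are in a finite set `A`,
`γ(a)` and `c(a)` are rational, `|γ(a)| < 1`, `|γ(a)|` is in `G` and the sequence `w` has
at most `C m` different blocks of length `m`, for all `m ∈ S` -/
def Series (S : Set ℕ) (G : Subgroup ℚˣ) : Set ℝ :=
  {x | ∃ (A : Type) (_ : Finite A) (γ c : A → ℚ) (w : ℕ → A) (C : ℝ),
    (∀ a, ∃ u ∈ G, |γ a| = ((u : ℚˣ) : ℚ)) ∧ (∀ a, |γ a| < 1) ∧
    HasSum (fun n => (∏ k ∈ Finset.range n, (γ (w k) : ℝ)) * (c (w n) : ℝ)) x ∧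
    ∀ m ∈ S, (blocks w m : ℝ) ≤ C * m}

/-- the field generated by `Series S G` -/
noncomputable def K (S : Set ℕ) (G : Subgroup ℚˣ) : Subfield ℝ := Subfield.closure (Series S G)

/-- the group of the positive rational numbers `u` such that `u ^ m = b ^ k` for some integers
`m ≥ 1` and `k` -/
def group (b : ℕ) : Subgroup ℚˣ := Pool.Agent.Run7.h123.LC.rad b

lemma mem_group {b : ℕ} {u : ℚˣ} : u ∈ group b ↔ 0 < (u : ℚ) ∧
    ∃ (m : ℕ) (k : ℤ), 1 ≤ m ∧ (u : ℚ) ^ m = (b : ℚ) ^ k := Iff.rfl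

/-- multiplicatively independent integers -/
def Independent {r : ℕ} (b : Fin r → ℕ) : Prop :=
  ∀ k : Fin r → ℤ, ∏ i, (b i : ℚ) ^ k i = 1 → k = 0

/-- independent groups -/
def IndependentGroups {r : ℕ} (G : Fin r → Subgroup ℚˣ) : Prop :=
  ∀ g : Fin r → ℚˣ, (∀ i, g i ∈ G i) → ∏ i, g i = 1 → ∀ i, g i = 1

/-- for some `k < r` and multiplicatively independent `c_1, …, c_k ≥ 2`, `P b` is true for all `b ≥ 2`
such that `c_1, …, c_k, b` are multiplicatively independent -/
def AllBut (r : ℕ) (P : ℕ → Prop) : Prop :=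
  ∃ (k : ℕ) (c : Fin k → ℕ), k < r ∧ (∀ i, 2 ≤ c i) ∧ Independent c ∧
    ∀ b : ℕ, 2 ≤ b → Independent (Fin.snoc c b : Fin (k + 1) → ℕ) → P b

/-- the zeta value `ζ(i) = ∑ 1 / n^i` -/
noncomputable def zeta (i : ℕ) : ℝ := ∑' n : ℕ, 1 / ((n : ℝ) + 1) ^ i

/-- `ζ(2)ζ(3), ζ(2), ζ(4)` -/
noncomputable def triple : Fin 3 → ℝ := ![zeta 2 * zeta 3, zeta 2, zeta 4]

/-- the dimension of the `F`-vector space spanned by `ζ(2)ζ(3), ζ(2), ζ(4)` -/
noncomputable def dim (F : Subfield ℝ) : ℕ := Module.finrank F (Submodule.span F (Set.range triple))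

/-- the solutions `(a, b, c, d)` of `ζ(2)ζ(3) = a ζ(2) + b ζ(3) + c ζ(4) + d ζ(5)` in the field `F` -/
def Solutions (F : Subfield ℝ) : Set (Fin 4 → F) :=
  {x | zeta 2 * zeta 3 = x 0 * zeta 2 + x 1 * zeta 3 + x 2 * zeta 4 + x 3 * zeta 5}

/-- the solutions are on a line, none has `b = d = 0`, at most one has `b = 0` and at most one `d = 0` -/
def FewSolutions (F : Subfield ℝ) : Prop :=
  Collinear F (Solutions F) ∧ (∀ x ∈ Solutions F, ¬ (x 1 = 0 ∧ x 3 = 0)) ∧
    {x ∈ Solutions F | x 1 = 0}.Subsingleton ∧ {x ∈ Solutions F | x 3 = 0}.Subsingleton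

section algebra

variable {F : Subfield ℝ}

/-- homogeneous relations -/
def Rel (u : Fin 4 → F) : Prop := (u 0 : ℝ) * zeta 2 + u 1 * zeta 3 + u 2 * zeta 4 + u 3 * zeta 5 = 0

lemma rel_zero (h : LinearIndependent F triple) {u : Fin 4 → F} (hu : Rel u) (h1 : u 1 = 0)
    (h3 : u 3 = 0) : u = 0 := by
  rw [Fintype.linearIndependent_iff] at h
  have h4 := h ![0, u 0, u 2] (by
    rw [Fin.sum_univ_three]
    simp only [triple, Matrix.cons_val_zero, Matrix.cons_val_one, Matrix.cons_val, zero_smul]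
    have e1 : ∀ (a : F) (x : ℝ), a • x = (a : ℝ) * x := fun a x => rfl
    rw [e1, e1]
    unfold Rel at hu
    rw [h1, h3] at hu
    push_cast at hu
    linarith)
  funext i
  fin_cases i
  · exact h4 1
  · exact h1
  · exact h4 2
  · exact h3

lemma no_sol (h : LinearIndependent F triple) {x : Fin 4 → F} (hx : x ∈ Solutions F) :
    ¬ (x 1 = 0 ∧ x 3 = 0) := by
  rintro ⟨h1, h3⟩
  rw [Fintype.linearIndependent_iff] at h
  have h4 := h ![1, -x 0, -x 2] (by
    rw [Fin.sum_univ_three]
    simp only [triple, Matrix.cons_val_zero, Matrix.cons_val_one, Matrix.cons_val]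
    have e1 : ∀ (a : F) (x : ℝ), a • x = (a : ℝ) * x := fun a x => rfl
    rw [e1, e1, e1]
    have hx' : zeta 2 * zeta 3 = x 0 * zeta 2 + x 1 * zeta 3 + x 2 * zeta 4 + x 3 * zeta 5 := hx
    rw [h1, h3] at hx'
    push_cast at hx' ⊢
    linarith) 0
  simp only [Matrix.cons_val_zero] at h4
  exact one_ne_zero h4

lemma sub_rel {x y : Fin 4 → F} (hx : x ∈ Solutions F) (hy : y ∈ Solutions F) : Rel (y - x) := by
  have hx' : zeta 2 * zeta 3 = x 0 * zeta 2 + x 1 * zeta 3 + x 2 * zeta 4 + x 3 * zeta 5 := hx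
  have hy' : zeta 2 * zeta 3 = y 0 * zeta 2 + y 1 * zeta 3 + y 2 * zeta 4 + y 3 * zeta 5 := hy
  unfold Rel
  simp only [Pi.sub_apply]
  push_cast
  linarith

lemma add_rel {x u : Fin 4 → F} (hx : x ∈ Solutions F) (hu : Rel u) (t : F) :
    x + t • u ∈ Solutions F := by
  have hx' : zeta 2 * zeta 3 = x 0 * zeta 2 + x 1 * zeta 3 + x 2 * zeta 4 + x 3 * zeta 5 := hx
  unfold Rel at hu
  change zeta 2 * zeta 3 = _
  simp only [Pi.add_apply, Pi.smul_apply, smul_eq_mul]
  push_cast
  have h1 : (t : ℝ) * ((u 0 : ℝ) * zeta 2 + u 1 * zeta 3 + u 2 * zeta 4 + u 3 * zeta 5) = 0 := by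
    rw [hu, mul_zero]
  linarith

lemma comb_rel {u v : Fin 4 → F} (hu : Rel u) (hv : Rel v) (s t : F) : Rel (s • u + t • v) := by
  unfold Rel at hu hv ⊢
  simp only [Pi.add_apply, Pi.smul_apply, smul_eq_mul]
  push_cast
  have h1 : (s : ℝ) * ((u 0 : ℝ) * zeta 2 + u 1 * zeta 3 + u 2 * zeta 4 + u 3 * zeta 5) = 0 := by
    rw [hu, mul_zero]
  have h2 : (t : ℝ) * ((v 0 : ℝ) * zeta 2 + v 1 * zeta 3 + v 2 * zeta 4 + v 3 * zeta 5) = 0 := by
    rw [hv, mul_zero]
  linarith

lemma det_zero (h : LinearIndependent F triple) {x u v : Fin 4 → F} (hx : x ∈ Solutions F)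
    (hu : Rel u) (hv : Rel v) : u 1 * v 3 - u 3 * v 1 = 0 := by
  by_contra hD
  obtain ⟨D, hD'⟩ : ∃ D, D = u 1 * v 3 - u 3 * v 1 := ⟨_, rfl⟩
  rw [← hD'] at hD
  have h1 := add_rel (add_rel hx hu (-((x 1 * v 3 - x 3 * v 1) / D))) hv
    (-((u 1 * x 3 - u 3 * x 1) / D))
  refine no_sol h h1 ⟨?_, ?_⟩
  · simp only [Pi.add_apply, Pi.smul_apply, smul_eq_mul]
    field_simp
    rw [hD']
    ring
  · simp only [Pi.add_apply, Pi.smul_apply, smul_eq_mul]
    field_simp
    rw [hD']
    ring

lemma prop_rel (h : LinearIndependent F triple) {x u v : Fin 4 → F} (hx : x ∈ Solutions F)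
    (hu : Rel u) (hv : Rel v) (hu0 : u ≠ 0) : ∃ t : F, v = t • u := by
  have hD := det_zero h hx hu hv
  have w1 : v 3 • u + (-u 3) • v = 0 := by
    refine rel_zero h (comb_rel hu hv _ _) ?_ ?_
    · simp only [Pi.add_apply, Pi.smul_apply, smul_eq_mul]
      linear_combination hD
    · simp only [Pi.add_apply, Pi.smul_apply, smul_eq_mul]
      ring
  have w2 : v 1 • u + (-u 1) • v = 0 := by
    refine rel_zero h (comb_rel hu hv _ _) ?_ ?_
    · simp only [Pi.add_apply, Pi.smul_apply, smul_eq_mul]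
      ring
    · simp only [Pi.add_apply, Pi.smul_apply, smul_eq_mul]
      linear_combination -hD
  by_cases h1 : u 1 = 0
  · by_cases h3 : u 3 = 0
    · exact absurd (rel_zero h hu h1 h3) hu0
    · refine ⟨v 3 / u 3, ?_⟩
      funext i
      have := congrFun w1 i
      simp only [Pi.add_apply, Pi.smul_apply, smul_eq_mul, Pi.zero_apply] at this ⊢
      field_simp
      linear_combination -this
  · refine ⟨v 1 / u 1, ?_⟩
    funext i
    have := congrFun w2 i
    simp only [Pi.add_apply, Pi.smul_apply, smul_eq_mul, Pi.zero_apply] at this ⊢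
    field_simp
    linear_combination -this

theorem few (h : LinearIndependent F triple) : FewSolutions F := by
  refine ⟨?_, fun x hx => no_sol h hx, ?_, ?_⟩
  · by_cases hs : ∃ x ∈ Solutions F, ∃ y ∈ Solutions F, x ≠ y
    · obtain ⟨x, hx, y, hy, hxy⟩ := hs
      rw [collinear_iff_of_mem hx]
      refine ⟨y - x, fun z hz => ?_⟩
      obtain ⟨t, ht⟩ := prop_rel h hx (sub_rel hx hy) (sub_rel hx hz) (sub_ne_zero.2 (Ne.symm hxy))
      refine ⟨t, ?_⟩
      rw [← ht, vadd_eq_add, sub_add_cancel]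
    · push Not at hs
      have hsub : (Solutions F).Subsingleton := fun x hx y hy => hs x hx y hy
      rcases hsub.eq_empty_or_singleton with he | ⟨x, he⟩
      · rw [he]
        exact collinear_empty F _
      · rw [he]
        exact collinear_singleton F x
  · rintro x ⟨hx, hx1⟩ y ⟨hy, hy1⟩
    by_contra hxy
    have hu := sub_rel hx hy
    obtain ⟨u, hu'⟩ : ∃ u, u = y - x := ⟨_, rfl⟩
    rw [← hu'] at hu
    have h1 : u 1 = 0 := by rw [hu', Pi.sub_apply, hx1, hy1, sub_zero]
    have h3 : u 3 ≠ 0 := fun h3 => by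
      have := rel_zero h hu h1 h3
      rw [hu', sub_eq_zero] at this
      exact hxy this.symm
    refine no_sol h (add_rel hx hu (-(x 3 / u 3))) ⟨?_, ?_⟩
    · simp only [Pi.add_apply, Pi.smul_apply, smul_eq_mul, h1, hx1, mul_zero, add_zero]
    · simp only [Pi.add_apply, Pi.smul_apply, smul_eq_mul]
      field_simp
      ring
  · rintro x ⟨hx, hx3⟩ y ⟨hy, hy3⟩
    by_contra hxy
    have hu := sub_rel hx hy
    obtain ⟨u, hu'⟩ : ∃ u, u = y - x := ⟨_, rfl⟩
    rw [← hu'] at hu
    have h3 : u 3 = 0 := by rw [hu', Pi.sub_apply, hx3, hy3, sub_zero]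
    have h1 : u 1 ≠ 0 := fun h1 => by
      have := rel_zero h hu h1 h3
      rw [hu', sub_eq_zero] at this
      exact hxy this.symm
    refine no_sol h (add_rel hx hu (-(x 1 / u 1))) ⟨?_, ?_⟩
    · simp only [Pi.add_apply, Pi.smul_apply, smul_eq_mul]
      field_simp
      ring
    · simp only [Pi.add_apply, Pi.smul_apply, smul_eq_mul, h3, hx3, mul_zero, add_zero]

end algebra

open Pool.Agent.Run7.h123.LC in
theorem allBut {P : ℕ → Prop} {r : ℕ} (hr : 1 ≤ r)
    (h : ∀ c : Fin r → ℕ, (∀ i, 2 ≤ c i) → Independent c → ∃ i, P (c i)) : AllBut r P := by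
  obtain ⟨n, rfl⟩ : ∃ n, r = n + 1 := ⟨r - 1, by omega⟩
  obtain ⟨k, c, hk, hc, hi, hb⟩ := outside_rank (fun b => ¬ P b) n (fun c hc hi hall => by
    obtain ⟨i, hi⟩ := h c hc hi
    exact hall i hi)
  exact ⟨k, c, by omega, hc, hi, fun b hb2 hbi => not_not.1 (hb b hb2 hbi)⟩

/-- Let `S` be an infinite set of integers.

(1) There are at most two multiplicatively independent `c_i ≥ 2` such that for all `b ≥ 2`
multiplicatively independent of them the numbers `ζ(2)ζ(3), ζ(2), ζ(4)` are linearly independent over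
`K S b`, and the solutions `(x_0, x_1, x_2, x_3)` of
`ζ(2)ζ(3) = x_0 ζ(2) + x_1 ζ(3) + x_2 ζ(4) + x_3 ζ(5)` in `K S b` are on a line, none has
`x_1 = x_3 = 0`, at most one has `x_1 = 0` and at most one has `x_3 = 0`.

(2) The same is true over one of the fields `K S G_1, K S G_2, K S G_3` if the groups are independent.
If `G ∩ H = 1`, then the dimensions over `K S G` and `K S H` of the spaces spanned by
`ζ(2)ζ(3), ζ(2), ζ(4)` have product at least `3`.

(3) The field `K S b` contains the rational numbers and all real numbers which have, in some base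
`d ≥ 2` with `d ^ m = b ^ k`, `m ≥ 1`, at most `C m` different blocks of `m` digits, `m ∈ S`, for some
`C`. -/
theorem result :
    (∀ S : Set ℕ, S.Infinite →
      AllBut 3 (fun b => LinearIndependent (K S (group b)) triple ∧ FewSolutions (K S (group b))) ∧
      (∀ G : Fin 3 → Subgroup ℚˣ, IndependentGroups G → ∃ i,
        LinearIndependent (K S (G i)) triple ∧ FewSolutions (K S (G i))) ∧
      ∀ G H : Subgroup ℚˣ, G ⊓ H = ⊥ → 3 ≤ dim (K S G) * dim (K S H)) ∧
    (∀ (S : Set ℕ) (b d m k : ℕ), 2 ≤ d → 1 ≤ m → d ^ m = b ^ k → ∀ x C : ℝ,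
      (∀ m ∈ S, (blocks (digit d x) m : ℝ) ≤ C * m) → x ∈ K S (group b)) ∧
    (∀ (S : Set ℕ) (G : Subgroup ℚˣ) (x : ℚ), (x : ℝ) ∈ K S G) := by
  refine ⟨fun S hS => ?_, fun S b d m k hd hm h x C hC => ?_,
    fun S G x => SubfieldClass.ratCast_mem _ x⟩
  · have key : ∀ G : Fin 3 → Subgroup ℚˣ, IndependentGroups G → ∃ i,
        LinearIndependent (K S (G i)) triple ∧ FewSolutions (K S (G i)) := by
      intro G hG
      obtain ⟨i, hi⟩ := Pool.Agent.Run7.h123.LC.lm_indep (x := triple)
        Pool.Agent.Run7.h123.LC.lm_product (by norm_num) hS hG (F := fun i => K S (G i))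
        (fun i => le_rfl)
      exact ⟨i, hi, few hi⟩
    refine ⟨?_, key, fun G H hGH => ?_⟩
    · exact allBut (by norm_num) fun c hc hi => key (fun i => group (c i))
        (Pool.Agent.Run7.h123.LC.gindep_rad hc hi)
    · exact Pool.Agent.Run7.h123.LC.lm_two (x := triple)
        Pool.Agent.Run7.h123.LC.lm_product hS hGH (F₁ := K S G) (F₂ := K S H) le_rfl le_rfl
        (FiniteDimensional.span_of_finite _ (Set.finite_range triple))
        (FiniteDimensional.span_of_finite _ (Set.finite_range triple))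
        (fun i => Submodule.subset_span ⟨i, rfl⟩) (fun i => Submodule.subset_span ⟨i, rfl⟩)
  · have hb0 : (d : ℚ) ≠ 0 := by
      have : d ≠ 0 := by omega
      exact_mod_cast this
    have hu : ∃ u ∈ group b, (u : ℚ) = d := by
      refine ⟨Units.mk0 (d : ℚ) hb0, mem_group.2 ⟨?_, m, (k : ℤ), hm, ?_⟩, rfl⟩
      · rw [Units.val_mk0]
        positivity
      · rw [Units.val_mk0, zpow_natCast]
        exact_mod_cast h
    exact Pool.Agent.Run7.h123.LC.digits_mem hd hu hC

end Pool.Agent.Results.MP_524521_nt.ProductOverSimpleFields
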