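import Mathlib
import Pool.Agent.Run7.h360.CF.Poly

/-!
# Linear forms in `ζ(2)ζ(3), ζ(2), ζ(3), ζ(4), ζ(5)` with simple values

Question Q1 asks if `ζ(2) ζ(3)` is in the ℚ-span of `ζ(2), ζ(3), ζ(4), ζ(5)`, that is, if some linear form
`a_0 ζ(2)ζ(3) + a_1 ζ(2) + a_2 ζ(3) + a_3 ζ(4) + a_4 ζ(5)` with integral coefficients, `a_0 ≠ 0`, is zero.  We
compare the descriptions of all numbers `(a_0 ζ(2)ζ(3) + a_1 ζ(2) + a_2 ζ(3) + a_3 ζ(4) + a_4 ζ(5) + c) / m`
and more generally of the values of the integral polynomials in `π`, `ζ(3)` and `ζ(5)`, at every scale.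

Let `y = [a_0; a_1, a_2, …]` be the regular continued fraction of a real number, `q_i` the denominators
of its convergents.  The places `u+1, …, v` are *copied at the price `N`* if, with the exception of
places up to some `s` with `q_s ≤ e^N q_u`, the partial quotients `a_i` at these places are equal to
the partial quotients `a_{i-d}` for one `d > 0` (`Copied`; the copied part may begin at any earlier
place and may overlap its copy, so that all periodic stretches with a short period are included).  A
number `y` is *simple up to the scale `X` with the parameters `r, K, N`* (`Simple`) if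

* after the removal of at most `K` places all stretches of the partial quotients `a_{i+1}` with
  `q_i ≤ e^X` are copied at the price `N`; or
* for some base `b`, after the removal of at most `K` places all stretches `u+1, …, v ≤ L` of the
  digits, `X ≤ L log b`, are terms of sequences whose power series satisfy modulo `t^(v+1)` an algebraic
  equation of degree `≤ r` with coefficients of degree `≤ k + r u`, `(k+1) log b ≤ N`; or
* the fractional part `z` of `y` satisfies `|P(z)| ≤ e^(-X)` for an integer polynomial `P ≠ 0` of degree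
  `≤ r` with coefficients `≤ e^N`.

So `K` is the number of the breaks, `N` the price of the description and `X` the length.  We prove: at every scale `X`, let `V_X ⊆ ℚ^5` be the ℚ-span of the integral vectors `a` with
coordinates `≤ H`, for which some number `(a_0 ζ(2)ζ(3) + a_1 ζ(2) + a_2 ζ(3) + a_3 ζ(4) + a_4 ζ(5) + c) / m`,
`1 ≤ m ≤ H`, `c` any integer, is simple up to `X` with `K` breaks at a price `N` with
`A^(K+1) (N + log H + 1) < X`, where `A` depends only on `r`.  Then `V_X` contains no vector
`(0, a_1, 0, a_3, 0)` besides `0`; so its dimension is at most `3`.  All linear relations (with constant term)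
between the numbers `ζ(2)ζ(3), ζ(2), ζ(3), ζ(4), ζ(5)`, in particular the one which Q1 asks for, are in `V_X`
if `X` is large, but also all forms which have periodic continued fractions or digits, which are well
approximable by algebraic numbers of bounded degree, or which are of this kind only up to the scale `X`.
The same holds for the integral polynomials `P(T_0, T_1, T_2)` of degree `≤ D` and height `≤ H`: the ℚ-span of
those with a simple value `(P(π, ζ(3), ζ(5)) + c) / m` contains no nonconstant polynomial in `T_0`.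

Proof.  A copy at the places `s+1, …, v` of the continued fraction gives the quadratic polynomial
`(q_{r-1} X - p_{r-1}) (q_s X - p_s) - (q_{s-1} X - p_{s-1}) (q_r X - p_r)`, whose value at `y` is, up to the
sign, not changed by a common letter and so at most `2 / q_v`; its leading coefficient is not zero.  The
breaks of the descriptions divide the interval `[0, X]` of scales into few intervals, and on each of
them all the numbers have integer polynomials with small coefficients and a very small value
(`Pool.Agent.Run7.h360.CF`).  Möbius images transform these polynomials.  If the span of the simple forms contains a form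
`a_1 ζ(2) + a_3 ζ(4)`, then by Cramer's rule at most four of them satisfy a linear relation over `ℤ[π]` with
small coefficients; numbers which satisfy a relation over `ℤ[π]` have a joint measure, uniformly in the
relation (helper168, `Run7.h168.Uni.jointH_rel`), which comes from the transcendence measure of `π`.
-/

set_option autoImplicit false

namespace Pool.Agent.Results.MP_524521_nt.SimpleFormsInZetaValues

open Polynomial

/-- `ζ(w)` -/
noncomputable def zeta (w : ℕ) : ℝ := ∑' k : ℕ, 1 / ((k : ℝ) + 1) ^ w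

/-- the rational vector of an integral vector -/
def ratVec {ι : Type} (a : ι → ℤ) : ι → ℚ := fun i => (a i : ℚ)

/-- the partial quotient `a_{i+1}` of `y = [a_0; a_1, a_2, …]` (`none` if the continued fraction has ended) -/
noncomputable def letter (y : ℝ) (i : ℕ) : Option ℝ := (GenContFract.of y).partDens.get? i

/-- the denominator `q_i` of `[a_0; a_1, …, a_i]` (the last denominator if the continued fraction has
ended) -/
noncomputable def den (y : ℝ) (i : ℕ) : ℝ := (GenContFract.of y).dens i

/-- the places `u+1, …, v` are copied at the price `N`: up to the place `s`, `q_s ≤ e^N q_u`, they are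
arbitrary, and from then on the partial quotients are equal to those `s - r` places before -/
def Copied (y : ℝ) (N : ℝ) (u v : ℕ) : Prop :=
  ∃ r s, r < s ∧ den y s ≤ Real.exp N * den y u ∧ ∀ i, s ≤ i → i < v → letter y i = letter y (i - (s - r))

/-- the partial quotients `a_{i+1}` with `q_i ≤ e^X` are copied at the price `N` on all stretches which
contain none of at most `K` places -/
def Pieces (y : ℝ) (K : ℕ) (N X : ℝ) : Prop :=
  ∃ T : Finset ℕ, T.card ≤ K ∧ ∀ u v, u < v → den y (v - 1) ≤ Real.exp X → (∀ t ∈ T, t ≤ u ∨ v < t) →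
    Copied y N u v

/-- the `i`-th digit of `y` after the point in base `b` -/
noncomputable def digit (b : ℕ) (y : ℝ) (i : ℕ) : ℤ := ⌊y * (b : ℝ) ^ i⌋ % (b : ℤ)

/-- the polynomial `s_1 X + s_2 X^2 + ⋯ + s_L X^L` -/
noncomputable def seqPoly (s : ℕ → ℤ) (L : ℕ) : ℚ[X] := ∑ l ∈ Finset.Icc 1 L, C (s l : ℚ) * X ^ l

/-- there is a nonzero polynomial `P(X, Y)` over `ℚ` of degree `≤ r` in `Y` and `≤ k` in `X` such
that `P(X, S(X))` is divisible by `X^(L+1)`, where `S` is the polynomial of the first `L` terms
of `s` -/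
def AlgRelation (s : ℕ → ℤ) (r L k : ℕ) : Prop :=
  ∃ P : ℚ[X][X], P ≠ 0 ∧ P.natDegree ≤ r ∧ (∀ j, (P.coeff j).natDegree ≤ k) ∧
    X ^ (L + 1) ∣ P.eval (seqPoly s L)

/-- the digits of `y` at the places `u+1, …, v` are the terms at these places of a sequence `s` of base `b`
digits, and the first `v` terms of `s` satisfy an algebraic relation of degree `≤ r` with coefficients of
degree `≤ k + r u` -/
def Described (b : ℕ) (y : ℝ) (r k u v : ℕ) : Prop :=
  ∃ s : ℕ → ℤ, (∀ l, 0 ≤ s l ∧ s l < b) ∧ (∀ l, u < l → l ≤ v → s l = digit b y l) ∧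
    AlgRelation s r v (k + r * u)

/-- the first `L` digits of `y` are described on all stretches which contain none of at most `K` places -/
def PieceByPiece (b : ℕ) (y : ℝ) (r K L k : ℕ) : Prop :=
  ∃ T : Finset ℕ, T.card ≤ K ∧
    ∀ u v, u ≤ v → v ≤ L → (∀ t ∈ T, t ≤ u ∨ v < t) → Described b y r k u v

/-- the fractional part of `y` almost satisfies an algebraic equation -/
def NearAlg (r : ℕ) (N X y : ℝ) : Prop :=
  ∃ P : ℤ[X], P ≠ 0 ∧ P.natDegree ≤ r ∧ (∀ i, |((P.coeff i : ℤ) : ℝ)| ≤ Real.exp N) ∧
    |(aeval (Int.fract y) P : ℝ)| ≤ Real.exp (-X)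

/-- `y` is simple up to the scale `X`, with `K` breaks and at the price `N` -/
def Simple (r K : ℕ) (N X y : ℝ) : Prop :=
  Pieces y K N X ∨
    (∃ b k L : ℕ, 2 ≤ b ∧ (k + 1) * Real.log b ≤ N ∧ X ≤ L * Real.log b ∧ PieceByPiece b y r K L k) ∨
    NearAlg r N X y


lemma zeta_two : zeta 2 = Real.pi ^ 2 / 6 := by
  have h2 : HasSum (fun k : ℕ => 1 / ((k : ℝ) + 1) ^ 2) (Real.pi ^ 2 / 6) := by
    have h3 := (hasSum_nat_add_iff' 1).2 hasSum_zeta_two
    simpa using h3
  exact h2.tsum_eq

lemma zeta_four : zeta 4 = Real.pi ^ 4 / 90 := by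
  have h2 : HasSum (fun k : ℕ => 1 / ((k : ℝ) + 1) ^ 4) (Real.pi ^ 4 / 90) := by
    have h3 := (hasSum_nat_add_iff' 1).2 hasSum_zeta_four
    simpa using h3
  exact h2.tsum_eq

/-- the coefficients of `90` times the form with respect to the powers of `π` and `π²ζ(3), ζ(3), ζ(5)` -/
def vec {R : Type} [CommRing R] (a : Fin 5 → R) : Fin 4 ⊕ Fin 3 → R :=
  Sum.elim ![0, 15 * a 1, 0, a 3] ![15 * a 0, 90 * a 2, 90 * a 4]

lemma vec_rat (a : Fin 5 → ℤ) : vec (ratVec a) = Run7.h360.CF.qv (vec a) := by
  ext i
  rcases i with i | i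
  · fin_cases i <;> simp [vec, ratVec, Run7.h360.CF.qv]
  · fin_cases i <;> simp [vec, ratVec, Run7.h360.CF.qv]

/-- `vec` as a linear map -/
def vecL : (Fin 5 → ℚ) →ₗ[ℚ] (Fin 4 ⊕ Fin 3 → ℚ) where
  toFun := vec
  map_add' a b := by
    ext i
    rcases i with i | i
    · fin_cases i <;> simp [vec] <;> ring
    · fin_cases i <;> simp [vec] <;> ring
  map_smul' c a := by
    ext i
    rcases i with i | i
    · fin_cases i <;> simp [vec] <;> ring
    · fin_cases i <;> simp [vec] <;> ring

/-- **(1) Linear forms.** For every `r` there is `A ≥ 1` such that, if `A^(K+1) (N + log H + 1) < X`, `H ≥ 1`, then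
the ℚ-span of the integral vectors `a` with coordinates `≤ H`, for which some number
`(a_0 ζ(2)ζ(3) + a_1 ζ(2) + a_2 ζ(3) + a_3 ζ(4) + a_4 ζ(5) + c) / m`, `1 ≤ m ≤ H`, `c` any integer, is simple up
to `X` with `K` breaks at the price `N`, contains no vector `(0, u_1, 0, u_3, 0)` besides `0`.

**(2) Polynomials.** For all `D`, `r` there is `A ≥ 1` such that, if `A^(K+1) (N + log H + 1) < X`, `H ≥ 1`, then
the ℚ-span of the integral polynomials `P(T_0, T_1, T_2)` of degree `≤ D` with coefficients `≤ H`, for which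
some number `(P(π, ζ(3), ζ(5)) + c) / m`, `1 ≤ m ≤ H`, `c` any integer, is simple up to `X` with `K` breaks at
the price `N`, contains no nonconstant polynomial in `T_0` alone. -/
theorem result :
    (∀ r : ℕ, ∃ A : ℝ, 1 ≤ A ∧ ∀ (H : ℝ) (K : ℕ) (N X : ℝ), 1 ≤ H → 0 ≤ N →
      A ^ (K + 1) * (N + Real.log H + 1) < X →
      ∀ u ∈ Submodule.span ℚ (ratVec '' {a : Fin 5 → ℤ | (∀ i, |(a i : ℝ)| ≤ H) ∧ ∃ c m : ℤ, 1 ≤ m ∧
          (m : ℝ) ≤ H ∧ Simple r K N X (((a 0 : ℝ) * (zeta 2 * zeta 3) + a 1 * zeta 2 + a 2 * zeta 3 +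
            a 3 * zeta 4 + a 4 * zeta 5 + c) / m)}),
        u 0 = 0 → u 2 = 0 → u 4 = 0 → u = 0) ∧
    ∀ D r : ℕ, ∃ A : ℝ, 1 ≤ A ∧ ∀ (H : ℝ) (K : ℕ) (N X : ℝ), 1 ≤ H → 0 ≤ N →
      A ^ (K + 1) * (N + Real.log H + 1) < X →
      ∀ Q ∈ Submodule.span ℚ (MvPolynomial.map (Int.castRingHom ℚ) '' {P : MvPolynomial (Fin 3) ℤ |
          P.totalDegree ≤ D ∧ (∀ s, |((P.coeff s : ℤ) : ℝ)| ≤ H) ∧ ∃ c m : ℤ, 1 ≤ m ∧ (m : ℝ) ≤ H ∧
          Simple r K N X ((MvPolynomial.aeval ![Real.pi, zeta 3, zeta 5] P + c) / m)}),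
        (∀ s, Q.coeff s ≠ 0 → s 1 = 0 ∧ s 2 = 0) → ∀ s, s ≠ 0 → Q.coeff s = 0 := by
  have hx : Pool.Agent.TH456.TM.MeasT ((Real.pi : ℝ) : ℂ) :=
    Pool.Agent.R473.JC.measT_three _ (Or.inr (Or.inl rfl))
  refine ⟨?_, ?_⟩
  · intro r
    obtain ⟨A, hA, h⟩ := Run7.h360.CF.simple_span Real.pi hx 4 3 r
    refine ⟨90 * A, by linarith, fun H K N X hH hN hX u hu hu0 hu2 hu4 => ?_⟩
    have hlH : 0 ≤ Real.log H := Real.log_nonneg hH
    have hl90 : Real.log 90 ≤ 89 := by
      have := Real.log_le_sub_one_of_pos (show (0 : ℝ) < 90 by norm_num)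
      linarith
    have hX' : A ^ (K + 1) * (N + Real.log (90 * H) + 1) < X := by
      refine lt_of_le_of_lt ?_ hX
      rw [Real.log_mul (by norm_num) (by linarith)]
      have h4 : (90 : ℝ) * A ^ (K + 1) ≤ (90 * A) ^ (K + 1) := by
        rw [mul_pow]
        exact mul_le_mul_of_nonneg_right (le_self_pow₀ (by norm_num) (by omega)) (by positivity)
      calc A ^ (K + 1) * (N + (Real.log 90 + Real.log H) + 1) ≤ A ^ (K + 1) * (90 * (N + Real.log H + 1)) :=
            mul_le_mul_of_nonneg_left (by linarith) (by positivity)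
        _ = 90 * A ^ (K + 1) * (N + Real.log H + 1) := by ring
        _ ≤ _ := mul_le_mul_of_nonneg_right h4 (by linarith)
    have h0 := h ![Real.pi ^ 2 * zeta 3, zeta 3, zeta 5] (90 * H) K N X (by linarith) hN hX' (vec u) (by
      have h1 : vecL u ∈ (Submodule.span ℚ (ratVec '' {a : Fin 5 → ℤ | (∀ i, |(a i : ℝ)| ≤ H) ∧ ∃ c m : ℤ, 1 ≤ m ∧
          (m : ℝ) ≤ H ∧ Simple r K N X (((a 0 : ℝ) * (zeta 2 * zeta 3) + a 1 * zeta 2 + a 2 * zeta 3 +
            a 3 * zeta 4 + a 4 * zeta 5 + c) / m)})).map vecL := Submodule.mem_map_of_mem hu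
      rw [Submodule.map_span] at h1
      refine Submodule.span_mono ?_ h1
      rintro _ ⟨_, ⟨a, ⟨ha1, c, m, hm1, hm2, hs⟩, rfl⟩, rfl⟩
      refine ⟨vec a, ⟨fun i => ?_, 90 * c, 90 * m, by omega, by push_cast; linarith, ?_⟩, (vec_rat a).symm⟩
      · have hb : ∀ (q : ℝ) (b : ℝ), 0 ≤ q → q ≤ 90 → |b| ≤ H → |q * b| ≤ 90 * H := by
          intro q b hq0 hq hb
          rw [abs_mul, abs_of_nonneg hq0]
          exact mul_le_mul hq hb (abs_nonneg _) (by norm_num)
        have hz : |(0 : ℝ)| ≤ 90 * H := by rw [abs_zero]; linarith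
        have h3 : |(a 3 : ℝ)| ≤ 90 * H := (ha1 3).trans (by linarith)
        rcases i with i | i
        · fin_cases i
          · simpa [vec] using hz
          · simpa [vec, abs_mul] using hb 15 (a 1) (by norm_num) (by norm_num) (ha1 1)
          · simpa [vec] using hz
          · simpa [vec] using h3
        · fin_cases i
          · simpa [vec, abs_mul] using hb 15 (a 0) (by norm_num) (by norm_num) (ha1 0)
          · simpa [vec, abs_mul] using hb 90 (a 2) (by norm_num) (by norm_num) (ha1 2)
          · simpa [vec, abs_mul] using hb 90 (a 4) (by norm_num) (by norm_num) (ha1 4)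
      · have hm0 : (m : ℝ) ≠ 0 := by
          have : (1 : ℝ) ≤ m := by exact_mod_cast hm1
          linarith
        have h2 : ((∑ k : Fin 4, ((vec a (Sum.inl k) : ℤ) : ℝ) * Real.pi ^ ((k : ℕ) + 1) +
            ∑ j : Fin 3, ((vec a (Sum.inr j) : ℤ) : ℝ) * (![Real.pi ^ 2 * zeta 3, zeta 3, zeta 5] j) +
            ((90 * c : ℤ) : ℝ)) / ((90 * m : ℤ) : ℝ)) = ((a 0 : ℝ) * (zeta 2 * zeta 3) + a 1 * zeta 2 + a 2 * zeta 3 +
            a 3 * zeta 4 + a 4 * zeta 5 + c) / m := by
          rw [Fin.sum_univ_four, Fin.sum_univ_three, zeta_two, zeta_four]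
          simp [vec]
          field_simp
          ring
        rw [h2]
        exact hs) (by
      intro j
      fin_cases j
      · show 15 * u 0 = 0
        rw [hu0, mul_zero]
      · show 90 * u 2 = 0
        rw [hu2, mul_zero]
      · show 90 * u 4 = 0
        rw [hu4, mul_zero])
    have h1 : (15 : ℚ) * u 1 = 0 := congrFun h0 (Sum.inl 1)
    have h3 : u 3 = 0 := congrFun h0 (Sum.inl 3)
    have h1' : u 1 = 0 := by linarith
    ext i
    fin_cases i
    · exact hu0
    · exact h1'
    · exact hu2
    · exact h3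
    · exact hu4
  · intro D r
    obtain ⟨A, hA, h⟩ := Run7.h360.CF.simple_poly Real.pi hx 2 D r
    refine ⟨A, hA, fun H K N X hH hN hX Q hQ hQt => ?_⟩
    exact h ![zeta 3, zeta 5] H K N X hH hN hX Q hQ (fun s hs j => by
      have h1 := hQt s hs
      fin_cases j
      · exact h1.1
      · exact h1.2)

end Pool.Agent.Results.MP_524521_nt.SimpleFormsInZetaValues
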