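import Mathlib
import Pool.Agent.Run7.h103.UN.Pair
import Pool.Agent.Run7.h103.UN.PiPow
import Pool.Agent.Run7.h103.PF.Meas
import Pool.Agent.Results.MP_a89d6d_nt.MeasurePiSquaredZetaThree

set_option autoImplicit false

/-!
# The product `ζ(2) ζ(3)` and the span of `1, ζ(2), ..., ζ(5)`: unpredictable digits

At the scale `(M, K)` a real number `w` has a predictable multiple in base `b` if for some integers
`m ≠ 0`, `l`, `q ≥ 1` with `|m|` and `q` at most `H = e ^ (A (K + 1))` the number `(m w + l) / q` is equal,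
up to `e ^ (- ε M) / q`, to a number whose first `M` digits in base `b` are predicted by some automaton
with at most `K` states, which reads the digits, with at most `A log (M / (K + 1))` errors. Digits may
be replaced by the differences between the digits and the letters of a fixed word of linear block
complexity.

Let `a`, `b`, `c` be bases such that `a ^ x b ^ y c ^ t = 1` only for `x = 0`, or only for `y = 0`, for
instance `(a, b, c) = (2, 3, 3)` or `(2, 3, 2)`. We prove: for all `A` and `ε > 0` there is `R` such that for all `M ≥ R (K + 1)`: `ζ(2)` has no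
predictable multiple in base `a`, or `ζ(3)` has none in base `b`, or

`|p_0 ζ(2) ζ(3) + p_1 + p_2 ζ(2) + p_3 ζ(3) + p_4 ζ(4) + p_5 t| > e ^ (- ε M)`

for ALL real numbers `t`, `|t| ≤ H`, with a predictable multiple in base `c` and all integers
`|p_i| ≤ H` with `p_0 ≠ 0`; we may take `t = ζ(5)`. So if `ζ(2) ζ(3)` is in the span of
`1, ζ(2), ζ(3), ζ(4), ζ(5)`, as the problem asks, then at every such scale `ζ(2)` has no predictable
multiple in base `a`, or `ζ(3)` has none in base `b`, or `ζ(5)` has none in base `c`.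

More generally the number `(p ζ(2) + q) ζ(3)` with `p ≠ 0` is never within `e ^ (- ε M)` of a polynomial
in `ζ(2)` and any other numbers with predictable multiples in bases `c_i`, if `ζ(2)` has such a multiple
in base `c_0` and `ζ(3)` has one in base `b`, no positive power of which is a product of powers
of the `c_i`.

Proof. In the residue field of the ring of bounded germs of sequences the numbers with predictable
multiples in bases `c_i` generate a field which is linearly disjoint, over the field of germs of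
bounded rational numbers, from the field for the base `b`; the numbers `1, ζ(3)` have a measure of
linear independence, so they are linearly independent over the first field, and `p ζ(2) + q` does not
vanish in the residue field, because `ζ(2)` has an irrationality measure. If `a` is independent of
`b` and `c`, we write the form as a polynomial of degree `2` in `ζ(2)` with coefficients in the
field for `b` and `c` and use the transcendence measure of `π`.
-/

namespace Pool.Agent.Results.MP_524521_nt.SpanUnlessPredictable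

open Pool.Agent.Run7.h103.PF Pool.Agent.Run7.h103.UN

/-- the zeta values -/
noncomputable def zeta (n : ℕ) : ℝ := ∑' k : ℕ, 1 / ((k : ℝ) + 1) ^ n

/-- the measure for `1, π², ζ(3)` -/
theorem measure : LinearMeasure ![1, Real.pi ^ 2, zeta 3] := by
  obtain ⟨c, hc, κ, hκ, h⟩ := Pool.Agent.Results.MP_a89d6d_nt.MeasurePiSquaredZetaThree.base
  obtain ⟨w', c', hc', h'⟩ := pi_sq_lin
  obtain ⟨k, hk⟩ := exists_nat_ge κ
  set d : ℝ := min c c' with hd
  have hd0 : 0 < d := lt_min hc hc'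
  obtain ⟨Q, hQ⟩ := exists_nat_ge (1 / d + 1)
  refine ⟨k + w' + 1, max Q 1, fun a ha H hH haH => ?_⟩
  have hH1 : 1 ≤ H := (le_max_right _ _).trans hH
  have hHr : (1 : ℝ) ≤ H := by exact_mod_cast hH1
  have hH0 : (0 : ℝ) < H := by linarith
  have hHQ : 1 / d + 1 ≤ (H : ℝ) := hQ.trans (by exact_mod_cast (le_max_left _ _).trans hH)
  have hdH : 1 < d * H := by
    have : 1 / d < H := by linarith
    rw [div_lt_iff₀ hd0] at this
    linarith
  have habs : ∀ j, |(a j : ℝ)| ≤ H := fun j => by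
    rw [← Int.cast_abs]
    exact_mod_cast haH j
  have hsum : ∑ j, (a j : ℝ) * (![1, Real.pi ^ 2, zeta 3] : Fin 3 → ℝ) j =
      (a 0 : ℝ) + a 1 * Real.pi ^ 2 + a 2 * zeta 3 := by
    rw [Fin.sum_univ_three]
    simp only [Matrix.cons_val_zero, Matrix.cons_val_one, Matrix.cons_val, mul_one]
  rw [hsum]
  set T : ℝ := |(a 0 : ℝ) + a 1 * Real.pi ^ 2 + a 2 * zeta 3| with hT
  have hTd : d ≤ T * (H : ℝ) ^ (k + w') := by
    by_cases ha2 : a 2 = 0
    · have hne : a 0 ≠ 0 ∨ a 1 ≠ 0 := by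
        by_contra hcon
        push Not at hcon
        apply ha
        funext j
        fin_cases j
        · exact hcon.1
        · exact hcon.2
        · exact ha2
      have h1 := h' (a 0) (a 1) hne H hHr (habs 0) (habs 1)
      have h2 : T = |(a 0 : ℝ) + a 1 * Real.pi ^ 2| := by
        rw [hT, ha2]
        simp
      rw [h2]
      calc d ≤ c' := min_le_right _ _
        _ ≤ (H : ℝ) ^ w' * |(a 0 : ℝ) + a 1 * Real.pi ^ 2| := h1
        _ ≤ (H : ℝ) ^ (k + w') * |(a 0 : ℝ) + a 1 * Real.pi ^ 2| := by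
            gcongr
            omega
        _ = _ := mul_comm _ _
    · have h1 := h (a 0) (a 1) (a 2) H hHr ha2 (habs 1) (habs 2)
      have h2 : c * (H : ℝ) ^ (-κ) ≤ T := h1
      have h3 : (H : ℝ) ^ (-κ) * (H : ℝ) ^ k ≥ 1 := by
        rw [← Real.rpow_natCast, ← Real.rpow_add hH0]
        exact Real.one_le_rpow hHr (by linarith)
      calc d ≤ c := min_le_left _ _
        _ = c * 1 := (mul_one c).symm
        _ ≤ c * ((H : ℝ) ^ (-κ) * (H : ℝ) ^ k) := by gcongr
        _ = c * (H : ℝ) ^ (-κ) * (H : ℝ) ^ k := by ring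
        _ ≤ T * (H : ℝ) ^ k := by gcongr
        _ ≤ T * (H : ℝ) ^ (k + w') := by
            have : 0 ≤ T := abs_nonneg _
            gcongr
            omega
  calc (1 : ℝ) < d * H := hdH
    _ ≤ T * (H : ℝ) ^ (k + w') * H := by gcongr
    _ = T * (H : ℝ) ^ (k + w' + 1) := by ring

lemma zeta_two : zeta 2 = Real.pi ^ 2 / 6 := by
  have h1 := hasSum_zeta_two
  have h2 := (hasSum_nat_add_iff' 1).2 h1
  have h3 : zeta 2 = Real.pi ^ 2 / 6 - ∑ i ∈ Finset.range 1, 1 / (i : ℝ) ^ 2 := by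
    rw [← h2.tsum_eq]
    unfold zeta
    congr 1
    funext n
    push_cast
    rfl
  rw [h3]
  simp

/-- the measure for `1, ζ(2), ζ(3)` -/
theorem measure' : LinearMeasure ![1, zeta 2, zeta 3] := by
  obtain ⟨w, Q, h⟩ := measure
  refine ⟨2 * w + 1, max Q 6, fun a ha H hH haH => ?_⟩
  have hH6 : 6 ≤ H := (le_max_right _ _).trans hH
  have hHr : (6 : ℝ) ≤ H := by exact_mod_cast hH6
  have h1 := h ![6 * a 0, a 1, 6 * a 2] (by
    intro h0
    apply ha
    have g0 := congrFun h0 0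
    have g1 := congrFun h0 1
    have g2 := congrFun h0 2
    simp only [Matrix.cons_val_zero, Matrix.cons_val_one, Matrix.cons_val, Pi.zero_apply] at g0 g1 g2
    funext j
    fin_cases j
    · change a 0 = 0
      omega
    · exact g1
    · change a 2 = 0
      omega) (6 * H) (by
    have : Q ≤ H := (le_max_left _ _).trans hH
    omega) (by
    intro j
    have g0 := haH 0
    have g1 := haH 1
    have g2 := haH 2
    fin_cases j
    · change |6 * a 0| ≤ ((6 * H : ℕ) : ℤ)
      rw [abs_mul]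
      push_cast
      have : |(6 : ℤ)| = 6 := rfl
      rw [this]
      omega
    · change |a 1| ≤ ((6 * H : ℕ) : ℤ)
      push_cast
      omega
    · change |6 * a 2| ≤ ((6 * H : ℕ) : ℤ)
      rw [abs_mul]
      push_cast
      have : |(6 : ℤ)| = 6 := rfl
      rw [this]
      omega)
  rw [Fin.sum_univ_three] at h1 ⊢
  simp only [Matrix.cons_val_zero, Matrix.cons_val_one, Matrix.cons_val, mul_one] at h1 ⊢
  rw [zeta_two]
  push_cast at h1
  have e : (6 * a 0 : ℝ) + a 1 * Real.pi ^ 2 + 6 * a 2 * zeta 3 =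
      6 * (a 0 + a 1 * (Real.pi ^ 2 / 6) + a 2 * zeta 3) := by ring
  rw [e, abs_mul, abs_of_pos (by norm_num : (0 : ℝ) < 6)] at h1
  have h2 : (6 : ℝ) * (6 * H) ^ w ≤ (H : ℝ) ^ (2 * w + 1) := by
    calc (6 : ℝ) * (6 * H) ^ w ≤ H * (H * H) ^ w := by gcongr
      _ = (H : ℝ) ^ (2 * w + 1) := by ring
  have h3 := abs_nonneg ((a 0 : ℝ) + a 1 * (Real.pi ^ 2 / 6) + a 2 * zeta 3)
  calc (1 : ℝ) < 6 * |(a 0 : ℝ) + a 1 * (Real.pi ^ 2 / 6) + a 2 * zeta 3| * (6 * H) ^ w := h1
    _ = |(a 0 : ℝ) + a 1 * (Real.pi ^ 2 / 6) + a 2 * zeta 3| * (6 * (6 * H) ^ w) := by ring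
    _ ≤ _ := by gcongr


lemma zeta_four : 5 * zeta 4 = 2 * zeta 2 ^ 2 := by
  have h1 := hasSum_zeta_four
  have h2 := (hasSum_nat_add_iff' 1).2 h1
  have h3 : zeta 4 = Real.pi ^ 4 / 90 - ∑ i ∈ Finset.range 1, 1 / (i : ℝ) ^ 4 := by
    rw [← h2.tsum_eq]
    unfold zeta
    congr 1
    funext n
    push_cast
    rfl
  rw [h3, zeta_two]
  simp
  ring

/-- the measure for `1, ζ(3)` -/
theorem measure_three : LinearMeasure ![1, zeta 3] := by
  obtain ⟨w, Q, h⟩ := measure'
  refine ⟨w, Q, fun a ha H hH haH => ?_⟩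
  have h1 := h ![a 0, 0, a 1] (by
    intro h0
    apply ha
    funext j
    fin_cases j
    · exact congrFun h0 0
    · exact congrFun h0 2) H hH (by
    intro j
    fin_cases j
    · exact haH 0
    · change |(0 : ℤ)| ≤ _
      rw [abs_zero]
      exact Int.natCast_nonneg _
    · exact haH 1)
  rw [Fin.sum_univ_three] at h1
  rw [Fin.sum_univ_two]
  simp only [Matrix.cons_val_zero, Matrix.cons_val_one, Matrix.cons_val, mul_one, Int.cast_zero,
    zero_mul, add_zero] at h1 ⊢
  exact h1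

/-- the measure for `1, ζ(2)` -/
theorem measure_two : LinearMeasure ![1, zeta 2] := by
  obtain ⟨w, Q, h⟩ := measure'
  refine ⟨w, Q, fun a ha H hH haH => ?_⟩
  have h1 := h ![a 0, a 1, 0] (by
    intro h0
    apply ha
    funext j
    fin_cases j
    · exact congrFun h0 0
    · exact congrFun h0 1) H hH (by
    intro j
    fin_cases j
    · exact haH 0
    · exact haH 1
    · change |(0 : ℤ)| ≤ _
      rw [abs_zero]
      exact Int.natCast_nonneg _)
  rw [Fin.sum_univ_three] at h1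
  rw [Fin.sum_univ_two]
  simp only [Matrix.cons_val_zero, Matrix.cons_val_one, Matrix.cons_val, mul_one, Int.cast_zero,
    zero_mul, add_zero] at h1 ⊢
  exact h1

/-- lower bounds at our scales -/
lemma lower {z : ℝ} (hz : LinearMeasure ![1, z]) (A : ℝ) : ∃ B : ℝ, 0 ≤ B ∧ ∀ (K : ℕ) (p q : ℤ),
    |(p : ℝ)| ≤ Real.exp (A * (K + 1)) → |(q : ℝ)| ≤ Real.exp (A * (K + 1)) → p ≠ 0 →
    Real.exp (-(B * (K + 1))) ≤ |(p : ℝ) * z + q| := by
  obtain ⟨w, Q, h⟩ := hz
  set D : ℝ := |A| + |(Q : ℝ) + 2| with hD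
  have hD0 : 0 ≤ D := by positivity
  refine ⟨w * D, by positivity, fun K p q hp hq hp0 => ?_⟩
  set X : ℝ := Real.exp (|A| * (K + 1)) with hX
  have hX1 : 1 ≤ X := Real.one_le_exp (by positivity)
  have hAX : Real.exp (A * (K + 1)) ≤ X := exp_mono (le_abs_self A) K
  set H : ℕ := Q + ⌈X⌉₊ with hH
  have hH1 : 1 ≤ H := by
    have : 1 ≤ ⌈X⌉₊ := Nat.one_le_ceil_iff.2 (by linarith)
    omega
  have hHX : (H : ℝ) ≤ (Q + 2) * X := by
    have h1 := Nat.ceil_lt_add_one (by linarith : 0 ≤ X)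
    have h2 : (0 : ℝ) ≤ Q := Nat.cast_nonneg Q
    rw [hH]
    push_cast
    nlinarith
  have hb : ∀ y : ℤ, |(y : ℝ)| ≤ Real.exp (A * (K + 1)) → |y| ≤ (H : ℤ) := by
    intro y hy
    have h1 : |(y : ℝ)| ≤ (H : ℝ) := by
      refine hy.trans (hAX.trans ((Nat.le_ceil X).trans ?_))
      rw [hH]
      push_cast
      have h2 : (0 : ℝ) ≤ Q := Nat.cast_nonneg Q
      linarith
    rw [← Int.cast_abs] at h1
    exact_mod_cast h1
  have h1 := h ![q, p] (fun h0 => hp0 (congrFun h0 1)) H (by omega) (by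
    intro j
    fin_cases j
    · exact hb q hq
    · exact hb p hp)
  rw [Fin.sum_univ_two] at h1
  simp only [Matrix.cons_val_zero, Matrix.cons_val_one, mul_one] at h1
  have h2 : (H : ℝ) ≤ Real.exp (D * (K + 1)) := by
    refine hHX.trans ?_
    rw [hD, hX]
    exact exp_const (c := (Q : ℝ) + 2) |A| K
  have h3 : (H : ℝ) ^ w ≤ Real.exp (w * D * (K + 1)) := by
    have : w * D * ((K : ℝ) + 1) = w * (D * (K + 1)) := by ring
    rw [this, Real.exp_nat_mul]
    gcongr
  have h4 := abs_nonneg ((q : ℝ) + p * z)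
  rw [Real.exp_neg, inv_le_iff_one_le_mul₀ (Real.exp_pos _), add_comm ((p : ℝ) * z)]
  exact h1.le.trans (by gcongr)

/-- the general result -/
theorem general {r : ℕ} (c : Fin (r + 1) → ℕ) (hc : ∀ i, 2 ≤ c i) {b : ℕ} (hb : 2 ≤ b)
    (hG : Pool.Agent.TH796.AL.Ai.GA (Set.range fun _ : Fin 1 => b) ⊓
      Pool.Agent.TH796.AL.Ai.GA (Set.range c) = ⊥) {C : ℝ} (u : Fin (r + 1) → ℕ → ℤ)
    (hu : ∀ i, SimpleWord (c i) C (u i)) (v : ℕ → ℤ) (hv : SimpleWord b C v) (d : ℕ) (A : ℝ)
    {ε : ℝ} (hε : 0 < ε) :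
    ∃ R : ℕ, 1 ≤ R ∧ ∀ M K : ℕ, R * (K + 1) ≤ M → PredictableMultiple b v A ε M K (zeta 3) →
      ∀ x : Fin (r + 1) → ℝ, x 0 = zeta 2 →
      (∀ i, PredictableMultiple (c i) (u i) A ε M K (x i)) →
      (∀ i, |x i| ≤ Real.exp (A * (K + 1))) →
      ∀ P : (Fin (r + 1) → Fin (d + 1 + 1)) → ℤ, SmallCoeff A K P → ∀ p q : ℤ, p ≠ 0 →
      |(p : ℝ)| ≤ Real.exp (A * (K + 1)) → |(q : ℝ)| ≤ Real.exp (A * (K + 1)) →
      Real.exp (-(ε * M)) < |(p * zeta 2 + q) * zeta 3 + value P x| := by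
  obtain ⟨B, hB, hlow⟩ := lower measure_two A
  set A' : ℝ := |A| + 2 + |zeta 3| + B with hA'
  have hz0 := abs_nonneg (zeta 3)
  have hAle := le_abs_self A
  have hA0 := abs_nonneg A
  obtain ⟨R, hR⟩ := two_groupsN (fun _ : Fin 1 => b) c (fun _ => hb) hc hG (fun _ => v) u
    (fun _ => simple_of hv) (fun i => simple_of (hu i)) measure_three (d + 1) A' hε
  refine ⟨R + 1, by omega, fun M K hMK hz x hx0 hx hxA P hP p q hp0 hp hq => ?_⟩
  by_contra hcon
  have hlog := log_nonneg_of (by omega : 1 ≤ R + 1) hMK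
  have hone : (1 : ℝ) ≤ Real.exp (A' * (K + 1)) := Real.one_le_exp (by positivity)
  have hup : Real.exp (A * (K + 1)) ≤ Real.exp (A' * (K + 1)) := exp_mono (by linarith) K
  refine hR M K (le_trans (Nat.mul_le_mul_right _ (Nat.le_succ R)) hMK) ?_ ?_
  · refine ⟨fun _ => zeta 3, mono 0 1, ![mono 0 1, mono (Pi.single 0 1) 1], fun _ => ?_,
      fun _ => near_of (hz.mono_A (by linarith) hlog), small_mono (by simpa using hone), fun j => ?_,
      ?_, fun j => ?_⟩
    · have h2 := exp_const (c := |zeta 3|) |A| K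
      rw [abs_abs] at h2
      refine le_trans ?_ (h2.trans (exp_mono (by linarith) K))
      exact le_mul_of_one_le_right (abs_nonneg _) (Real.one_le_exp (by positivity))
    · fin_cases j
      · exact small_mono (by simpa using hone)
      · exact small_mono (by simpa using hone)
    · change _ ≤ |value (mono 0 1) _|
      rw [value_const, Int.cast_one, abs_one, Real.exp_le_one_iff]
      have : 0 ≤ A' * ((K : ℝ) + 1) := by positivity
      linarith
    · fin_cases j
      · change |value (mono 0 1) _ * (1 : ℝ) - value (mono 0 1) _| ≤ _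
        rw [mul_one, sub_self, abs_zero]
        exact (Real.exp_pos _).le
      · change |value (mono 0 1) _ * zeta 3 - value (mono (Pi.single 0 1) 1) _| ≤ _
        rw [value_const, value_X]
        simp only [Int.cast_one, one_mul]
        rw [sub_self, abs_zero]
        exact (Real.exp_pos _).le
  · refine ⟨x, ![P, mono (Pi.single 0 1) p + mono 0 q], fun i => (hxA i).trans hup,
      fun i => near_of ((hx i).mono_A (by linarith) hlog), fun j => ?_, ⟨1, ?_⟩, ?_⟩
    · fin_cases j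
      · exact fun e => (hP e).trans hup
      · exact (small_add (small_mono hp) (small_mono hq)).mono_A (by linarith)
    · change _ ≤ |value (mono (Pi.single 0 1) p + mono 0 q) x|
      rw [value_add, value_X, value_const, hx0]
      refine le_trans ?_ (hlow K p q hp hq hp0)
      rw [Real.exp_le_exp]
      have : B * ((K : ℝ) + 1) ≤ A' * (K + 1) := by
        gcongr
        linarith
      linarith
    · rw [Fin.sum_univ_two]
      change |value P x * 1 + value (mono (Pi.single 0 1) p + mono 0 q) x * zeta 3| ≤ _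
      rw [value_add, value_X, value_const, hx0, mul_one, add_comm]
      exact not_lt.1 hcon

/-- the subgroup of the multiplicative group of `ℚ` generated by `A` -/
def group (A : Set ℕ) : Subgroup ℚˣ := Subgroup.closure {u | ∃ b ∈ A, ((u : ℚˣ) : ℚ) = b}

lemma mem_group_one {b : ℕ} (hb : 2 ≤ b) {u : ℚˣ} (hu : u ∈ group (Set.range fun _ : Fin 1 => b)) :
    ∃ k : ℤ, ((u : ℚˣ) : ℚ) = (b : ℚ) ^ k := by
  have h0 : (b : ℚ) ≠ 0 := by exact_mod_cast (by omega : b ≠ 0)
  unfold group at hu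
  induction hu using Subgroup.closure_induction with
  | mem x hx =>
    obtain ⟨c, ⟨_, hb⟩, hxb⟩ := hx
    refine ⟨1, ?_⟩
    rw [hxb, zpow_one]
    exact_mod_cast hb.symm
  | one => exact ⟨0, by simp⟩
  | mul x y _ _ hx hy =>
    obtain ⟨k, hk⟩ := hx
    obtain ⟨l, hl⟩ := hy
    exact ⟨k + l, by rw [Units.val_mul, hk, hl, zpow_add₀ h0]⟩
  | inv x _ hx =>
    obtain ⟨k, hk⟩ := hx
    exact ⟨-k, by rw [Units.val_inv_eq_inv_val, hk, zpow_neg]⟩

lemma mem_group_two {a c : ℕ} (ha : 2 ≤ a) (hc : 2 ≤ c) {u : ℚˣ}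
    (hu : u ∈ group (Set.range ![a, c])) :
    ∃ k l : ℤ, ((u : ℚˣ) : ℚ) = (a : ℚ) ^ k * (c : ℚ) ^ l := by
  have ha0 : (a : ℚ) ≠ 0 := by exact_mod_cast (by omega : a ≠ 0)
  have hc0 : (c : ℚ) ≠ 0 := by exact_mod_cast (by omega : c ≠ 0)
  unfold group at hu
  induction hu using Subgroup.closure_induction with
  | mem x hx =>
    obtain ⟨e, ⟨i, hi⟩, hxe⟩ := hx
    fin_cases i
    · have hi' : a = e := hi
      exact ⟨1, 0, by rw [hxe, ← hi', zpow_one, zpow_zero, mul_one]⟩
    · have hi' : c = e := hi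
      exact ⟨0, 1, by rw [hxe, ← hi', zpow_one, zpow_zero, one_mul]⟩
  | one => exact ⟨0, 0, by simp⟩
  | mul x y _ _ hx hy =>
    obtain ⟨k, l, hk⟩ := hx
    obtain ⟨k', l', hl⟩ := hy
    exact ⟨k + k', l + l', by
      rw [Units.val_mul, hk, hl, zpow_add₀ ha0, zpow_add₀ hc0]
      ring⟩
  | inv x _ hx =>
    obtain ⟨k, l, hk⟩ := hx
    exact ⟨-k, -l, by rw [Units.val_inv_eq_inv_val, hk, zpow_neg, zpow_neg, mul_inv]⟩

lemma group_bot {a b c : ℕ} (ha : 2 ≤ a) (hb : 2 ≤ b) (hc : 2 ≤ c)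
    (h : ∀ x y t : ℤ, (b : ℚ) ^ x * (a : ℚ) ^ y * (c : ℚ) ^ t = 1 → x = 0) :
    group (Set.range fun _ : Fin 1 => b) ⊓ group (Set.range ![a, c]) = ⊥ := by
  have ha0 : (a : ℚ) ≠ 0 := by exact_mod_cast (by omega : a ≠ 0)
  have hc0 : (c : ℚ) ≠ 0 := by exact_mod_cast (by omega : c ≠ 0)
  rw [eq_bot_iff]
  rintro u ⟨h1, h2⟩
  obtain ⟨x, hx⟩ := mem_group_one hb h1
  obtain ⟨y, t, hyt⟩ := mem_group_two ha hc h2
  have h5 := h x (-y) (-t) (by
    rw [← hx, hyt, zpow_neg, zpow_neg]
    have g1 := zpow_ne_zero y ha0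
    have g2 := zpow_ne_zero t hc0
    field_simp)
  rw [Subgroup.mem_bot]
  exact Units.ext (by rw [hx, h5, zpow_zero, Units.val_one])

lemma mono_eps {b : ℕ} {u : ℕ → ℤ} {A ε ε' : ℝ} (h : ε' ≤ ε) {M K : ℕ} {w : ℝ}
    (hw : PredictableMultiple b u A ε M K w) : PredictableMultiple b u A ε' M K w := by
  obtain ⟨m, q, l, y, h1, h2, h3, h4, h5, h6⟩ := hw
  refine ⟨m, q, l, y, h1, h2, h3, h4, h5.trans ?_, h6⟩
  rw [Real.exp_le_exp]
  have : ε' * (M : ℝ) ≤ ε * M := by gcongr
  linarith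

/-- the forms in the zeta values -/
theorem forms {a b c : ℕ} (ha : 2 ≤ a) (hb : 2 ≤ b) (hc : 2 ≤ c)
    (h : ∀ x y t : ℤ, (b : ℚ) ^ x * (a : ℚ) ^ y * (c : ℚ) ^ t = 1 → x = 0) {C : ℝ}
    (u v w : ℕ → ℤ) (hu : SimpleWord a C u) (hv : SimpleWord b C v) (hw : SimpleWord c C w) (A : ℝ)
    {ε : ℝ} (hε : 0 < ε) :
    ∃ R : ℕ, 1 ≤ R ∧ ∀ M K : ℕ, R * (K + 1) ≤ M → PredictableMultiple a u A ε M K (zeta 2) →
      PredictableMultiple b v A ε M K (zeta 3) →
      ∀ t : ℝ, |t| ≤ Real.exp (A * (K + 1)) → PredictableMultiple c w A ε M K t →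
      ∀ p : Fin 6 → ℤ, p 0 ≠ 0 → (∀ i, |(p i : ℝ)| ≤ Real.exp (A * (K + 1))) →
      Real.exp (-(ε * M)) < |p 0 * (zeta 2 * zeta 3) + p 1 + p 2 * zeta 2 + p 3 * zeta 3 +
        p 4 * zeta 4 + p 5 * t| := by
  set A' : ℝ := |A| + |zeta 2| + 12 with hA'
  have hAle := le_abs_self A
  have hA0 := abs_nonneg A
  have hz0 := abs_nonneg (zeta 2)
  obtain ⟨R, hR1, hR⟩ := general (r := 1) ![a, c] (by
    intro i
    fin_cases i
    · exact ha
    · exact hc) hb (group_bot ha hb hc h) ![u, w] (by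
    intro i
    fin_cases i
    · exact hu
    · exact hw) v hv 1 A' (half_pos hε)
  obtain ⟨R0, hR0⟩ := exists_nat_ge (4 / ε)
  refine ⟨R + R0, by omega, fun M K hMK h2 h3 t htA ht p hp0 hp => ?_⟩
  have hlog := log_nonneg_of (by omega : 1 ≤ R + R0) hMK
  have hup : Real.exp (A * (K + 1)) ≤ Real.exp (A' * (K + 1)) := exp_mono (by linarith) K
  have h5c : ∀ n : ℤ, |(n : ℝ)| ≤ Real.exp (A * (K + 1)) →
      |((5 * n : ℤ) : ℝ)| ≤ Real.exp ((|A| + 5) * (K + 1)) := by
    intro n hn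
    have g1 := exp_const (c := 5) |A| K
    rw [abs_of_pos (by norm_num : (0 : ℝ) < 5)] at g1
    push_cast
    rw [abs_mul, abs_of_pos (by norm_num : (0 : ℝ) < 5)]
    have g2 := exp_mono hAle K
    linarith
  have h2c : |((2 * p 4 : ℤ) : ℝ)| ≤ Real.exp ((|A| + 5) * (K + 1)) := by
    refine le_trans ?_ (h5c (p 4) (hp 4))
    push_cast
    rw [abs_mul, abs_mul, abs_of_pos (by norm_num : (0 : ℝ) < 5),
      abs_of_pos (by norm_num : (0 : ℝ) < 2)]
    have := abs_nonneg (p 4 : ℝ)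
    linarith
  set P : (Fin 2 → Fin 3) → ℤ := mono 0 (5 * p 1) + mono (Pi.single 0 1) (5 * p 2) +
    mono (Pi.single 0 2) (2 * p 4) + mono (Pi.single 1 1) (5 * p 5) with hP
  have hPs : SmallCoeff A' K P := by
    have g1 := small_add (small_add (small_add
      (small_mono (e := (0 : Fin 2 → Fin 3)) (h5c (p 1) (hp 1)))
      (small_mono (e := (Pi.single 0 1 : Fin 2 → Fin 3)) (h5c (p 2) (hp 2))))
      ((small_mono (e := (Pi.single 0 2 : Fin 2 → Fin 3)) h2c).mono_A
        (by linarith : |A| + 5 ≤ |A| + 5 + 2)))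
      ((small_mono (e := (Pi.single 1 1 : Fin 2 → Fin 3)) (h5c (p 5) (hp 5))).mono_A
        (by linarith : |A| + 5 ≤ |A| + 5 + 2 + 2))
    exact g1.mono_A (by linarith)
  have hPv : value P ![zeta 2, t] = 5 * p 1 + 5 * p 2 * zeta 2 + 2 * p 4 * zeta 2 ^ 2 +
      5 * p 5 * t := by
    rw [hP, value_add, value_add, value_add, value_mono, value_mono, value_mono, value_mono]
    simp [Fin.prod_univ_two]
  have hMKR : R * (K + 1) ≤ M := le_trans (Nat.mul_le_mul_right _ (Nat.le_add_right R R0)) hMK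
  have key := hR M K hMKR ((mono_eps (by linarith) h3).mono_A (by linarith) hlog) ![zeta 2, t] rfl
    (by
      intro i
      fin_cases i
      · exact (mono_eps (by linarith) h2).mono_A (by linarith) hlog
      · exact (mono_eps (by linarith) ht).mono_A (by linarith) hlog) (by
      intro i
      fin_cases i
      · have g1 := exp_const (c := |zeta 2|) |A| K
        rw [abs_abs] at g1
        change |zeta 2| ≤ _
        refine le_trans ?_ (g1.trans (exp_mono (by linarith) K))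
        exact le_mul_of_one_le_right (abs_nonneg _) (Real.one_le_exp (by positivity))
      · exact htA.trans hup) P hPs (5 * p 0) (5 * p 3) (by omega)
    ((h5c (p 0) (hp 0)).trans (exp_mono (by linarith) K))
    ((h5c (p 3) (hp 3)).trans (exp_mono (by linarith) K))
  rw [hPv] at key
  have e1 : (((5 * p 0 : ℤ) : ℝ) * zeta 2 + ((5 * p 3 : ℤ) : ℝ)) * zeta 3 +
      (5 * p 1 + 5 * p 2 * zeta 2 + 2 * p 4 * zeta 2 ^ 2 + 5 * p 5 * t) =
      5 * (p 0 * (zeta 2 * zeta 3) + p 1 + p 2 * zeta 2 + p 3 * zeta 3 + p 4 * zeta 4 +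
        p 5 * t) := by
    have := zeta_four
    push_cast
    linear_combination (-(p 4 : ℝ)) * this
  rw [e1, abs_mul, abs_of_pos (by norm_num : (0 : ℝ) < 5)] at key
  have hM : 4 ≤ ε * M := by
    have g0 : R0 * (K + 1) ≤ M := le_trans (Nat.mul_le_mul_right _ (Nat.le_add_left R0 R)) hMK
    have g1 : (R0 : ℝ) * (K + 1) ≤ M := by exact_mod_cast g0
    have g2 : 4 ≤ ε * R0 := by
      rw [div_le_iff₀ hε] at hR0
      linarith
    have g3 : (0 : ℝ) ≤ K := Nat.cast_nonneg K
    have g4 : (0 : ℝ) ≤ R0 := Nat.cast_nonneg R0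
    have g5 : (R0 : ℝ) ≤ M := by nlinarith
    nlinarith
  have h5 : 5 * Real.exp (-(ε * M)) ≤ Real.exp (-(ε / 2 * M)) := by
    have g1 : Real.exp (-(ε * M)) * Real.exp 2 ≤ Real.exp (-(ε / 2 * M)) := by
      rw [← Real.exp_add, Real.exp_le_exp]
      linarith
    have g2 : (5 : ℝ) ≤ Real.exp 2 := by
      have g3 := Real.quadratic_le_exp_of_nonneg (by norm_num : (0 : ℝ) ≤ 2)
      norm_num at g3
      linarith
    have g4 := (Real.exp_pos (-(ε * M))).le
    nlinarith
  linarith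

/-- the forms in the zeta values, with the roles of `ζ(2)` and `ζ(3)` exchanged -/
theorem forms' {a b c : ℕ} (ha : 2 ≤ a) (hb : 2 ≤ b) (hc : 2 ≤ c)
    (h : ∀ x y t : ℤ, (a : ℚ) ^ x * (b : ℚ) ^ y * (c : ℚ) ^ t = 1 → x = 0) {C : ℝ}
    (u v w : ℕ → ℤ) (hu : SimpleWord a C u) (hv : SimpleWord b C v) (hw : SimpleWord c C w) (A : ℝ)
    {ε : ℝ} (hε : 0 < ε) :
    ∃ R : ℕ, 1 ≤ R ∧ ∀ M K : ℕ, R * (K + 1) ≤ M → PredictableMultiple a u A ε M K (zeta 2) →
      PredictableMultiple b v A ε M K (zeta 3) →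
      ∀ t : ℝ, |t| ≤ Real.exp (A * (K + 1)) → PredictableMultiple c w A ε M K t →
      ∀ p : Fin 6 → ℤ, p 0 ≠ 0 → (∀ i, |(p i : ℝ)| ≤ Real.exp (A * (K + 1))) →
      Real.exp (-(ε * M)) < |p 0 * (zeta 2 * zeta 3) + p 1 + p 2 * zeta 2 + p 3 * zeta 3 +
        p 4 * zeta 4 + p 5 * t| := by
  obtain ⟨B, hB, hlow⟩ := lower measure_three A
  set A' : ℝ := |A| + |zeta 2| + |zeta 3| + 12 + B with hA'
  have hAle := le_abs_self A
  have hA0 := abs_nonneg A
  have hz0 := abs_nonneg (zeta 2)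
  have hz1 := abs_nonneg (zeta 3)
  obtain ⟨R, hR⟩ := two_groupsN (fun _ : Fin 1 => a) ![b, c] (fun _ => ha) (by
    intro i
    fin_cases i
    · exact hb
    · exact hc) (group_bot hb ha hc h) (fun _ => u) ![v, w]
    (fun _ => simple_of hu) (by
    intro i
    fin_cases i
    · exact simple_of hv
    · exact simple_of hw) (measure_pi_pow zeta_two) 2 A' (half_pos hε)
  obtain ⟨R0, hR0⟩ := exists_nat_ge (4 / ε)
  refine ⟨R + 1 + R0, by omega, fun M K hMK h2 h3 t htA ht p hp0 hp => ?_⟩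
  by_contra hcon
  rw [not_lt] at hcon
  have hlog := log_nonneg_of (by omega : 1 ≤ R + 1 + R0) hMK
  have hone : (1 : ℝ) ≤ Real.exp (A' * (K + 1)) := Real.one_le_exp (by positivity)
  have hup : Real.exp (A * (K + 1)) ≤ Real.exp (A' * (K + 1)) := exp_mono (by linarith) K
  have hzb : ∀ y : ℝ, |y| ≤ |zeta 2| + |zeta 3| → |y| ≤ Real.exp (A' * (K + 1)) := by
    intro y hy
    have g1 := exp_const (c := |zeta 2| + |zeta 3|) |A| K
    rw [abs_of_nonneg (add_nonneg hz0 hz1)] at g1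
    refine le_trans ?_ (g1.trans (exp_mono (by linarith) K))
    exact hy.trans (le_mul_of_one_le_right (by positivity) (Real.one_le_exp (by positivity)))
  have h5c : ∀ n : ℤ, |(n : ℝ)| ≤ Real.exp (A * (K + 1)) →
      |((5 * n : ℤ) : ℝ)| ≤ Real.exp ((|A| + 5) * (K + 1)) := by
    intro n hn
    have g1 := exp_const (c := 5) |A| K
    rw [abs_of_pos (by norm_num : (0 : ℝ) < 5)] at g1
    push_cast
    rw [abs_mul, abs_of_pos (by norm_num : (0 : ℝ) < 5)]
    have g2 := exp_mono hAle K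
    linarith
  have h2c : |((2 * p 4 : ℤ) : ℝ)| ≤ Real.exp ((|A| + 5) * (K + 1)) := by
    refine le_trans ?_ (h5c (p 4) (hp 4))
    push_cast
    rw [abs_mul, abs_mul, abs_of_pos (by norm_num : (0 : ℝ) < 5),
      abs_of_pos (by norm_num : (0 : ℝ) < 2)]
    have := abs_nonneg (p 4 : ℝ)
    linarith
  have hM : 4 ≤ ε * M := by
    have g0 : R0 * (K + 1) ≤ M :=
      le_trans (Nat.mul_le_mul_right _ (Nat.le_add_left R0 (R + 1))) hMK
    have g1 : (R0 : ℝ) * (K + 1) ≤ M := by exact_mod_cast g0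
    have g2 : 4 ≤ ε * R0 := by
      rw [div_le_iff₀ hε] at hR0
      linarith
    have g3 : (0 : ℝ) ≤ K := Nat.cast_nonneg K
    have g4 : (0 : ℝ) ≤ R0 := Nat.cast_nonneg R0
    have g5 : (R0 : ℝ) ≤ M := by nlinarith
    nlinarith
  have h5 : 5 * Real.exp (-(ε * M)) ≤ Real.exp (-(ε / 2 * M)) := by
    have g1 : Real.exp (-(ε * M)) * Real.exp 2 ≤ Real.exp (-(ε / 2 * M)) := by
      rw [← Real.exp_add, Real.exp_le_exp]
      linarith
    have g2 : (5 : ℝ) ≤ Real.exp 2 := by
      have g3 := Real.quadratic_le_exp_of_nonneg (by norm_num : (0 : ℝ) ≤ 2)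
      norm_num at g3
      linarith
    have g4 := (Real.exp_pos (-(ε * M))).le
    nlinarith
  have hMKR : R * (K + 1) ≤ M := le_trans (Nat.mul_le_mul_right _ (by omega)) hMK
  refine hR M K hMKR ?_ ?_
  · refine ⟨fun _ => zeta 2, mono 0 1, ![mono 0 1, mono (Pi.single 0 1) 1, mono (Pi.single 0 2) 1],
      fun _ => hzb _ (by linarith),
      fun _ => near_of ((mono_eps (by linarith) h2).mono_A (by linarith) hlog),
      small_mono (by simpa using hone), fun j => ?_, ?_, fun j => ?_⟩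
    · fin_cases j
      · exact small_mono (by simpa using hone)
      · exact small_mono (by simpa using hone)
      · exact small_mono (by simpa using hone)
    · change _ ≤ |value (mono 0 1) _|
      rw [value_const, Int.cast_one, abs_one, Real.exp_le_one_iff]
      have : 0 ≤ A' * ((K : ℝ) + 1) := by positivity
      linarith
    · fin_cases j
      · change |value (mono 0 1) _ * (1 : ℝ) - value (mono 0 1) _| ≤ _
        rw [mul_one, sub_self, abs_zero]
        exact (Real.exp_pos _).le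
      · change |value (mono 0 1) _ * zeta 2 - value (mono (Pi.single 0 1) 1) _| ≤ _
        rw [value_const, value_X]
        simp only [Int.cast_one, one_mul]
        rw [sub_self, abs_zero]
        exact (Real.exp_pos _).le
      · change |value (mono 0 1) _ * zeta 2 ^ 2 - value (mono (Pi.single 0 2) 1) _| ≤ _
        rw [value_const, value_mono]
        have e0 : ((1 : ℤ) : ℝ) * zeta 2 ^ 2 - ((1 : ℤ) : ℝ) * ∏ i : Fin 1,
            (fun _ => zeta 2 : Fin 1 → ℝ) i ^ (((Pi.single 0 2 : Fin 1 → Fin 3) i : Fin 3) : ℕ) =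
            0 := by
          simp
        rw [e0, abs_zero]
        exact (Real.exp_pos _).le
  · set P0 : (Fin 2 → Fin 3) → ℤ := mono 0 (5 * p 1) + mono (Pi.single 0 1) (5 * p 3) +
      mono (Pi.single 1 1) (5 * p 5) with hP0
    set P1 : (Fin 2 → Fin 3) → ℤ := mono (Pi.single 0 1) (5 * p 0) + mono 0 (5 * p 2) with hP1
    set P2 : (Fin 2 → Fin 3) → ℤ := mono 0 (2 * p 4) with hP2
    have s0 : SmallCoeff A' K P0 := by
      have g1 := small_add (small_add
        (small_mono (e := (0 : Fin 2 → Fin 3)) (h5c (p 1) (hp 1)))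
        (small_mono (e := (Pi.single 0 1 : Fin 2 → Fin 3)) (h5c (p 3) (hp 3))))
        ((small_mono (e := (Pi.single 1 1 : Fin 2 → Fin 3)) (h5c (p 5) (hp 5))).mono_A
          (by linarith : |A| + 5 ≤ |A| + 5 + 2))
      exact g1.mono_A (by linarith)
    have s1 : SmallCoeff A' K P1 := by
      have g1 := small_add
        (small_mono (e := (Pi.single 0 1 : Fin 2 → Fin 3)) (h5c (p 0) (hp 0)))
        (small_mono (e := (0 : Fin 2 → Fin 3)) (h5c (p 2) (hp 2)))
      exact g1.mono_A (by linarith)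
    have s2 : SmallCoeff A' K P2 :=
      (small_mono (e := (0 : Fin 2 → Fin 3)) h2c).mono_A (by linarith)
    have v0 : value P0 ![zeta 3, t] = 5 * p 1 + 5 * p 3 * zeta 3 + 5 * p 5 * t := by
      rw [hP0, value_add, value_add, value_mono, value_mono, value_mono]
      simp [Fin.prod_univ_two]
    have v1 : value P1 ![zeta 3, t] = 5 * (p 0 * zeta 3 + p 2) := by
      rw [hP1, value_add, value_mono, value_mono]
      simp [Fin.prod_univ_two]
      ring
    have v2 : value P2 ![zeta 3, t] = 2 * p 4 := by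
      rw [hP2, value_const]
      push_cast
      rfl
    refine ⟨![zeta 3, t], ![P0, P1, P2], fun i => ?_, fun i => ?_, fun j => ?_, ⟨1, ?_⟩, ?_⟩
    · fin_cases i
      · exact hzb (zeta 3) (by linarith)
      · exact htA.trans hup
    · fin_cases i
      · exact near_of ((mono_eps (by linarith) h3).mono_A (by linarith) hlog)
      · exact near_of ((mono_eps (by linarith) ht).mono_A (by linarith) hlog)
    · fin_cases j
      · exact s0
      · exact s1
      · exact s2
    · change _ ≤ |value P1 ![zeta 3, t]|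
      rw [v1, abs_mul, abs_of_pos (by norm_num : (0 : ℝ) < 5)]
      have g1 := hlow K (p 0) (p 2) (hp 0) (hp 2) hp0
      have g2 : Real.exp (-(A' * (K + 1))) ≤ Real.exp (-(B * (K + 1))) := by
        rw [Real.exp_le_exp]
        have : B * ((K : ℝ) + 1) ≤ A' * (K + 1) := by
          gcongr
          linarith
        linarith
      linarith [abs_nonneg ((p 0 : ℝ) * zeta 3 + p 2)]
    · rw [Fin.sum_univ_three]
      change |value P0 ![zeta 3, t] * 1 + value P1 ![zeta 3, t] * zeta 2 +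
        value P2 ![zeta 3, t] * zeta 2 ^ 2| ≤ _
      have e1 : value P0 ![zeta 3, t] * 1 + value P1 ![zeta 3, t] * zeta 2 +
          value P2 ![zeta 3, t] * zeta 2 ^ 2 = 5 * (p 0 * (zeta 2 * zeta 3) + p 1 + p 2 * zeta 2 +
            p 3 * zeta 3 + p 4 * zeta 4 + p 5 * t) := by
        rw [v0, v1, v2]
        have := zeta_four
        linear_combination (-(p 4 : ℝ)) * this
      rw [e1, abs_mul, abs_of_pos (by norm_num : (0 : ℝ) < 5)]
      linarith

/-- No power `a ^ x`, `x ≠ 0`, of `a` is a product of integer powers of `b` and `c`. -/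
def IndependentOf (a b c : ℕ) : Prop :=
  ∀ x y t : ℤ, (a : ℚ) ^ x * (b : ℚ) ^ y * (c : ℚ) ^ t = 1 → x = 0

/-- both cases -/
theorem both {a b c : ℕ} (ha : 2 ≤ a) (hb : 2 ≤ b) (hc : 2 ≤ c)
    (h : IndependentOf a b c ∨ IndependentOf b a c) {C : ℝ}
    (u v w : ℕ → ℤ) (hu : SimpleWord a C u) (hv : SimpleWord b C v) (hw : SimpleWord c C w) (A : ℝ)
    {ε : ℝ} (hε : 0 < ε) :
    ∃ R : ℕ, 1 ≤ R ∧ ∀ M K : ℕ, R * (K + 1) ≤ M → PredictableMultiple a u A ε M K (zeta 2) →
      PredictableMultiple b v A ε M K (zeta 3) →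
      ∀ t : ℝ, |t| ≤ Real.exp (A * (K + 1)) → PredictableMultiple c w A ε M K t →
      ∀ p : Fin 6 → ℤ, p 0 ≠ 0 → (∀ i, |(p i : ℝ)| ≤ Real.exp (A * (K + 1))) →
      Real.exp (-(ε * M)) < |p 0 * (zeta 2 * zeta 3) + p 1 + p 2 * zeta 2 + p 3 * zeta 3 +
        p 4 * zeta 4 + p 5 * t| := by
  rcases h with h | h
  · exact forms' ha hb hc h u v w hu hv hw A hε
  · exact forms ha hb hc h u v w hu hv hw A hε

/-- (1) Let `c_0, ..., c_r` and `b` be bases such that the subgroup of `ℚˣ` generated by `b` meets the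
subgroup generated by the `c_i` in `1`, and let `u_0, ..., u_r`, `v` be words of linear block complexity.
For all `d`, `A` and `ε > 0` there is `R` such that for all `M`, `K` with `R (K + 1) ≤ M`: if `ζ(3)` has a
predictable multiple in base `b`, then `|(p ζ(2) + q) ζ(3) + P (x)| > e ^ (- ε M)` for all
`x = (x_0, ..., x_r)` with `x_0 = ζ(2)` and predictable multiples in base `c_i`, `|x_i| ≤ H`, all integer
polynomials `P` of degree at most `d + 1` in each variable with coefficients at most `H` and all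
integers `p ≠ 0`, `q` of absolute value at most `H`, where `H = e ^ (A (K + 1))`.

(2) Let `a, b, c ≥ 2` be integers such that no power `a ^ x` with `x ≠ 0` is a product of integer
powers of `b` and `c`, or no power `b ^ y` with `y ≠ 0` is a product of integer powers of `a` and `c`
(`IndependentOf`). For all words `u, v, w` of linear block complexity, all `A` and `ε > 0` there is `R` such that
for all `M`, `K` with `R (K + 1) ≤ M`: if `ζ(2)` has a predictable multiple in base `a` and `ζ(3)` has one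
in base `b`, then for all real numbers `t` with a predictable multiple in base `c`, `|t| ≤ H`, and all
integers `|p_i| ≤ H` with `p_0 ≠ 0`
`|p_0 ζ(2) ζ(3) + p_1 + p_2 ζ(2) + p_3 ζ(3) + p_4 ζ(4) + p_5 t| > e ^ (- ε M)`.

(3) If `ζ(2) ζ(3)` is in the span of `1, ζ(2), ζ(3), ζ(4), ζ(5)` over `ℚ`, then for all such bases, words,
`A` and `ε > 0` there is `R` such that for all `M`, `K` with `R (K + 1) ≤ M`: `ζ(2)` has no predictable
multiple in base `a`, or `ζ(3)` has none in base `b`, or `ζ(5)` has none in base `c`. -/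
theorem result :
    (∀ (r : ℕ) (c : Fin (r + 1) → ℕ) (b : ℕ), (∀ i, 2 ≤ c i) → 2 ≤ b →
      group (Set.range fun _ : Fin 1 => b) ⊓ group (Set.range c) = ⊥ →
      ∀ (C : ℝ) (u : Fin (r + 1) → ℕ → ℤ) (v : ℕ → ℤ), (∀ i, SimpleWord (c i) C (u i)) →
      SimpleWord b C v → ∀ (d : ℕ) (A ε : ℝ), 0 < ε →
      ∃ R : ℕ, ∀ M K : ℕ, R * (K + 1) ≤ M → PredictableMultiple b v A ε M K (zeta 3) →
        ∀ x : Fin (r + 1) → ℝ, x 0 = zeta 2 →
        (∀ i, PredictableMultiple (c i) (u i) A ε M K (x i)) →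
        (∀ i, |x i| ≤ Real.exp (A * (K + 1))) →
        ∀ P : (Fin (r + 1) → Fin (d + 1 + 1)) → ℤ, SmallCoeff A K P → ∀ p q : ℤ, p ≠ 0 →
        |(p : ℝ)| ≤ Real.exp (A * (K + 1)) → |(q : ℝ)| ≤ Real.exp (A * (K + 1)) →
        Real.exp (-(ε * M)) < |(p * zeta 2 + q) * zeta 3 + value P x|) ∧
    (∀ a b c : ℕ, 2 ≤ a → 2 ≤ b → 2 ≤ c →
      (IndependentOf a b c ∨ IndependentOf b a c) →
      ∀ (C : ℝ) (u v w : ℕ → ℤ), SimpleWord a C u → SimpleWord b C v → SimpleWord c C w →
      ∀ A ε : ℝ, 0 < ε → ∃ R : ℕ, ∀ M K : ℕ, R * (K + 1) ≤ M →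
        PredictableMultiple a u A ε M K (zeta 2) → PredictableMultiple b v A ε M K (zeta 3) →
        ∀ t : ℝ, |t| ≤ Real.exp (A * (K + 1)) → PredictableMultiple c w A ε M K t →
        ∀ p : Fin 6 → ℤ, p 0 ≠ 0 → (∀ i, |(p i : ℝ)| ≤ Real.exp (A * (K + 1))) →
        Real.exp (-(ε * M)) < |p 0 * (zeta 2 * zeta 3) + p 1 + p 2 * zeta 2 + p 3 * zeta 3 +
          p 4 * zeta 4 + p 5 * t|) ∧
    (∀ q : Fin 5 → ℚ,
      zeta 2 * zeta 3 = q 0 + q 1 * zeta 2 + q 2 * zeta 3 + q 3 * zeta 4 + q 4 * zeta 5 →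
      ∀ a b c : ℕ, 2 ≤ a → 2 ≤ b → 2 ≤ c →
      (IndependentOf a b c ∨ IndependentOf b a c) →
      ∀ (C : ℝ) (u v w : ℕ → ℤ), SimpleWord a C u → SimpleWord b C v → SimpleWord c C w →
      ∀ A ε : ℝ, 0 < ε → ∃ R : ℕ, ∀ M K : ℕ, R * (K + 1) ≤ M →
        ¬ (PredictableMultiple a u A ε M K (zeta 2) ∧ PredictableMultiple b v A ε M K (zeta 3) ∧
          PredictableMultiple c w A ε M K (zeta 5))) := by
  refine ⟨?_, ?_, ?_⟩
  · intro r c b hc hb hG C u v hu hv d A ε hε
    obtain ⟨R, -, hR⟩ := general c hc hb hG u hu v hv d A hε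
    exact ⟨R, hR⟩
  · intro a b c ha hb hc h C u v w hu hv hw A ε hε
    obtain ⟨R, -, hR⟩ := both ha hb hc h u v w hu hv hw A hε
    exact ⟨R, hR⟩
  · intro q hq a b c ha hb hc h C u v w hu hv hw A ε hε
    set D : ℤ := ∏ i, ((q i).den : ℤ) with hD
    have hD0 : D ≠ 0 := Finset.prod_ne_zero_iff.2 fun i _ => by exact_mod_cast (q i).den_ne_zero
    have hex : ∀ i, ∃ n : ℤ, (n : ℝ) = D * q i := by
      intro i
      refine ⟨(q i).num * ∏ j ∈ Finset.univ.erase i, ((q j).den : ℤ), ?_⟩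
      have h1 : ((q i).num : ℝ) = q i * (q i).den := by
        exact_mod_cast (Rat.mul_den_eq_num (q i)).symm
      rw [hD, ← Finset.mul_prod_erase Finset.univ _ (Finset.mem_univ i)]
      push_cast
      rw [h1]
      ring
    choose n hn using hex
    set p : Fin 6 → ℤ := ![D, -n 0, -n 1, -n 2, -n 3, -n 4] with hp
    set A' : ℝ := |A| + (|zeta 5| + ∑ i, |(p i : ℝ)|) with hA'
    have hs0 : 0 ≤ ∑ i, |(p i : ℝ)| := Finset.sum_nonneg fun _ _ => abs_nonneg _
    have hz0 := abs_nonneg (zeta 5)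
    have hAA' : A ≤ A' := by
      have := le_abs_self A
      linarith
    obtain ⟨R, hR1, hR⟩ := both ha hb hc h u v w hu hv hw A' hε
    refine ⟨R, fun M K hMK hcon => ?_⟩
    obtain ⟨g1, g2, g3⟩ := hcon
    have hlog := log_nonneg_of hR1 hMK
    have hbd : ∀ y : ℝ, |y| ≤ |zeta 5| + ∑ i, |(p i : ℝ)| → |y| ≤ Real.exp (A' * (K + 1)) := by
      intro y hy
      have h2 := exp_const (c := |zeta 5| + ∑ i, |(p i : ℝ)|) |A| K
      rw [abs_of_nonneg (add_nonneg hz0 hs0)] at h2
      refine le_trans ?_ h2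
      exact hy.trans (le_mul_of_one_le_right (by positivity) (Real.one_le_exp (by positivity)))
    have h1 := hR M K hMK (g1.mono_A hAA' hlog) (g2.mono_A hAA' hlog) (zeta 5)
      (hbd _ (by linarith)) (g3.mono_A hAA' hlog) p hD0 fun i => hbd _ (by
        have := Finset.single_le_sum (f := fun i => |(p i : ℝ)|) (fun _ _ => abs_nonneg _)
          (Finset.mem_univ i)
        linarith)
    have e1 : (p 0 : ℝ) * (zeta 2 * zeta 3) + p 1 + p 2 * zeta 2 + p 3 * zeta 3 + p 4 * zeta 4 +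
        p 5 * zeta 5 = 0 := by
      have e0 : (p 0 : ℝ) = D := rfl
      have e1 : (p 1 : ℝ) = -(D * q 0) := by rw [← hn 0, ← Int.cast_neg]; rfl
      have e2 : (p 2 : ℝ) = -(D * q 1) := by rw [← hn 1, ← Int.cast_neg]; rfl
      have e3 : (p 3 : ℝ) = -(D * q 2) := by rw [← hn 2, ← Int.cast_neg]; rfl
      have e4 : (p 4 : ℝ) = -(D * q 3) := by rw [← hn 3, ← Int.cast_neg]; rfl
      have e5 : (p 5 : ℝ) = -(D * q 4) := by rw [← hn 4, ← Int.cast_neg]; rfl
      rw [e0, e1, e2, e3, e4, e5, hq]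
      ring
    rw [e1, abs_zero] at h1
    exact absurd h1 (not_lt.2 (Real.exp_pos _).le)

end Pool.Agent.Results.MP_524521_nt.SpanUnlessPredictable
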